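import Pool.Agent.R233.JI.Stm

set_option autoImplicit false

namespace Pool.Agent.R233.JI

theorem tC1 : C1 := by
  intro p1 q1 p2 q2 p3 q3 α β γ h1 h2 h3 hα hβ hγ hne h
  rcases lt_trichotomy p1 p2 with hlt | heq | hgt
  · -- p1 < p2
    have e1 := h p1
    rw [if_pos (show p1 ≤ p1 ∧ p1 ≤ q1 from ⟨le_rfl, h1⟩),
      if_neg (show ¬(p2 ≤ p1 ∧ p1 ≤ q2) from fun hh => by omega), sub_zero] at e1
    have hαγ : α = γ := by
      by_cases c : p3 ≤ p1 ∧ p1 ≤ q3
      · rwa [if_pos c] at e1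
      · rw [if_neg c] at e1; exact absurd e1 hα
    have e2 := h p2
    rw [if_pos (show p2 ≤ p2 ∧ p2 ≤ q2 from ⟨le_rfl, h2⟩)] at e2
    have hres : α = β ∨ -β = γ := by
      by_cases c1 : p1 ≤ p2 ∧ p2 ≤ q1
      · rw [if_pos c1] at e2
        by_cases c : p3 ≤ p2 ∧ p2 ≤ q3
        · rw [if_pos c] at e2
          exact absurd (show β = 0 by linarith) hβ
        · rw [if_neg c] at e2
          left; linarith
      · rw [if_neg c1, zero_sub] at e2
        by_cases c : p3 ≤ p2 ∧ p2 ≤ q3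
        · rw [if_pos c] at e2
          right; exact e2
        · rw [if_neg c] at e2
          exact absurd (show β = 0 by linarith) hβ
    refine ⟨?_, ?_, fun hp => absurd hp hlt.ne⟩
    · rcases hres with hr | hr
      · rw [hr]
      · rw [hαγ, ← hr, abs_neg]
    · rcases hres with hr | hr
      · rw [← hr, hαγ]
      · rw [← hr, abs_neg]
  · -- p1 = p2
    subst heq
    have hq : q1 ≠ q2 := fun hh => hne (by rw [hh])
    rcases lt_or_gt_of_ne hq with hlt | hgt
    · -- q1 < q2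
      have e1 := h q2
      rw [if_neg (show ¬(p1 ≤ q2 ∧ q2 ≤ q1) from fun hh => by omega),
        if_pos (show p1 ≤ q2 ∧ q2 ≤ q2 from ⟨h2, le_rfl⟩), zero_sub] at e1
      have c1 : p3 ≤ q2 ∧ q2 ≤ q3 := by
        by_contra c
        rw [if_neg c] at e1
        exact hβ (by linarith)
      rw [if_pos c1] at e1
      have e2 := h (q1 + 1)
      rw [if_neg (show ¬(p1 ≤ q1 + 1 ∧ q1 + 1 ≤ q1) from fun hh => by omega),
        if_pos (show p1 ≤ q1 + 1 ∧ q1 + 1 ≤ q2 from ⟨by omega, by omega⟩), zero_sub] at e2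
      have c2 : p3 ≤ q1 + 1 ∧ q1 + 1 ≤ q3 := by
        by_contra c
        rw [if_neg c] at e2
        exact hβ (by linarith)
      have e3 := h q1
      rw [if_pos (show p1 ≤ q1 ∧ q1 ≤ q1 from ⟨h1, le_rfl⟩),
        if_pos (show p1 ≤ q1 ∧ q1 ≤ q2 from ⟨h1, hlt.le⟩)] at e3
      have c3 : ¬(p3 ≤ q1 ∧ q1 ≤ q3) := by
        intro c
        rw [if_pos c] at e3
        exact hα (by linarith)
      rw [if_neg c3] at e3
      have e4 := h (q2 + 1)
      rw [if_neg (show ¬(p1 ≤ q2 + 1 ∧ q2 + 1 ≤ q1) from fun hh => by omega),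
        if_neg (show ¬(p1 ≤ q2 + 1 ∧ q2 + 1 ≤ q2) from fun hh => by omega), sub_zero] at e4
      have c4 : ¬(p3 ≤ q2 + 1 ∧ q2 + 1 ≤ q3) := by
        intro c
        rw [if_pos c] at e4
        exact hγ e4.symm
      have hab : α = β := by linarith
      refine ⟨by rw [hab], by rw [← e1, abs_neg], fun _ => Or.inr ⟨hlt, ?_, ?_, hab, ?_⟩⟩
      · by_contra hcon
        exact c3 ⟨by omega, by omega⟩
      · by_contra hcon
        exact c4 ⟨by omega, by omega⟩
      · linarith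
    · -- q2 < q1
      have e1 := h q1
      rw [if_pos (show p1 ≤ q1 ∧ q1 ≤ q1 from ⟨h1, le_rfl⟩),
        if_neg (show ¬(p1 ≤ q1 ∧ q1 ≤ q2) from fun hh => by omega), sub_zero] at e1
      have c1 : p3 ≤ q1 ∧ q1 ≤ q3 := by
        by_contra c
        rw [if_neg c] at e1
        exact hα e1
      rw [if_pos c1] at e1
      have e2 := h (q2 + 1)
      rw [if_pos (show p1 ≤ q2 + 1 ∧ q2 + 1 ≤ q1 from ⟨by omega, by omega⟩),
        if_neg (show ¬(p1 ≤ q2 + 1 ∧ q2 + 1 ≤ q2) from fun hh => by omega), sub_zero] at e2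
      have c2 : p3 ≤ q2 + 1 ∧ q2 + 1 ≤ q3 := by
        by_contra c
        rw [if_neg c] at e2
        exact hα e2
      have e3 := h q2
      rw [if_pos (show p1 ≤ q2 ∧ q2 ≤ q1 from ⟨h2, by omega⟩),
        if_pos (show p1 ≤ q2 ∧ q2 ≤ q2 from ⟨h2, le_rfl⟩)] at e3
      have c3 : ¬(p3 ≤ q2 ∧ q2 ≤ q3) := by
        intro c
        rw [if_pos c] at e3
        exact hβ (by linarith)
      rw [if_neg c3] at e3
      have e4 := h (q1 + 1)
      rw [if_neg (show ¬(p1 ≤ q1 + 1 ∧ q1 + 1 ≤ q1) from fun hh => by omega),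
        if_neg (show ¬(p1 ≤ q1 + 1 ∧ q1 + 1 ≤ q2) from fun hh => by omega), sub_zero] at e4
      have c4 : ¬(p3 ≤ q1 + 1 ∧ q1 + 1 ≤ q3) := by
        intro c
        rw [if_pos c] at e4
        exact hγ e4.symm
      have hab : α = β := by linarith
      refine ⟨by rw [hab], by rw [← hab, e1], fun _ => Or.inl ⟨hgt, ?_, ?_, hab, ?_⟩⟩
      · by_contra hcon
        exact c3 ⟨by omega, by omega⟩
      · by_contra hcon
        exact c4 ⟨by omega, by omega⟩
      · linarith
  · -- p2 < p1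
    have e1 := h p2
    rw [if_neg (show ¬(p1 ≤ p2 ∧ p2 ≤ q1) from fun hh => by omega),
      if_pos (show p2 ≤ p2 ∧ p2 ≤ q2 from ⟨le_rfl, h2⟩), zero_sub] at e1
    have hβγ : -β = γ := by
      by_cases c : p3 ≤ p2 ∧ p2 ≤ q3
      · rwa [if_pos c] at e1
      · rw [if_neg c] at e1
        exact absurd (show β = 0 by linarith) hβ
    have e2 := h p1
    rw [if_pos (show p1 ≤ p1 ∧ p1 ≤ q1 from ⟨le_rfl, h1⟩)] at e2
    have hres : α = β ∨ α = γ := by
      by_cases c1 : p2 ≤ p1 ∧ p1 ≤ q2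
      · rw [if_pos c1] at e2
        by_cases c : p3 ≤ p1 ∧ p1 ≤ q3
        · rw [if_pos c] at e2
          exact absurd (show α = 0 by linarith) hα
        · rw [if_neg c] at e2
          left; linarith
      · rw [if_neg c1, sub_zero] at e2
        by_cases c : p3 ≤ p1 ∧ p1 ≤ q3
        · rw [if_pos c] at e2
          right; exact e2
        · rw [if_neg c] at e2
          exact absurd e2 hα
    have hbg : |β| = |γ| := by rw [← hβγ, abs_neg]
    refine ⟨?_, hbg, fun hp => absurd hp.symm hgt.ne⟩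
    rcases hres with hr | hr
    · rw [hr]
    · rw [hr, hbg]

end Pool.Agent.R233.JI
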