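import Pool.Agent.R233.JI.Stm

/-! Project JI, piece C2 (rigidity combinatorics). -/

set_option autoImplicit false

namespace Pool.Agent.R233.JI

namespace C2Aux

theorem lam_pos (i : ℕ) : 0 < lam i := Real.exp_pos _

theorem lam_lt {i j : ℕ} (h : i < j) : lam j < lam i := by
  unfold lam
  apply Real.exp_lt_exp.2
  have h1 : (1 / 2 : ℝ) ^ j < (1 / 2 : ℝ) ^ i :=
    pow_lt_pow_right_of_lt_one₀ (by norm_num) (by norm_num) h
  linarith

theorem lt_of_lam {i j : ℕ} (h : lam j < lam i) : i < j := by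
  by_contra hc
  rcases lt_or_eq_of_le (not_lt.1 hc) with h1 | h1
  · exact absurd (lam_lt h1) (not_lt.2 h.le)
  · rw [h1] at h
    exact lt_irrefl _ h

end C2Aux

open C2Aux in
theorem tC2 : C2 := by
  intro hL hC1 P Q s h1 h2 h3 h4
  obtain ⟨hL1, hL2, hL3, hL4⟩ := hL
  have hs0 : ∀ p q, p ≤ q → s p q ≠ 0 := by
    intro p q hpq
    rcases h2 p q hpq with h | h
    · rw [h]; norm_num
    · rw [h]; norm_num
  have hsa : ∀ p q, p ≤ q → |s p q| = 1 := by
    intro p q hpq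
    rcases h2 p q hpq with h | h
    · rw [h]; norm_num
    · rw [h]; norm_num
  have hlp : ∀ i, 0 < lam i := lam_pos
  -- first step
  have base : ∀ p q, p ≤ q → P p (q + 1) = P p q ∧ P p q = p ∧ P (q + 1) (q + 1) = q + 1 ∧
      ((Q p q < Q p (q + 1) ∧ P (q + 1) (q + 1) = Q p q + 1 ∧
        s p (q + 1) * lam (P p (q + 1)) = s p q * lam (P p q) ∧
        s p q * lam (P p q) =
          lam p / lam (q + 1) * (s (q + 1) (q + 1) * lam (P (q + 1) (q + 1)))) ∨
      (Q p (q + 1) < Q p q ∧ P (q + 1) (q + 1) = Q p (q + 1) + 1)) := by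
    intro p q hpq
    have hpq1 : p ≤ q + 1 := Nat.le_succ_of_le hpq
    have hα : s p (q + 1) * lam (P p (q + 1)) ≠ 0 := mul_ne_zero (hs0 _ _ hpq1) (hlp _).ne'
    have hβ : s p q * lam (P p q) ≠ 0 := mul_ne_zero (hs0 _ _ hpq) (hlp _).ne'
    have hγ : lam p / lam (q + 1) * (s (q + 1) (q + 1) * lam (P (q + 1) (q + 1))) ≠ 0 :=
      mul_ne_zero (div_ne_zero (hlp _).ne' (hlp _).ne')
        (mul_ne_zero (hs0 _ _ le_rfl) (hlp _).ne')
    have hne : (P p (q + 1), Q p (q + 1)) ≠ (P p q, Q p q) := by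
      intro h
      rw [Prod.mk.injEq] at h
      have := (h3 p (q + 1) p q hpq1 hpq h.1 h.2).2
      omega
    obtain ⟨e1, e2, e3⟩ := hC1 _ _ _ _ _ _ _ _ _ (h1 p (q + 1) hpq1) (h1 p q hpq)
      (h1 (q + 1) (q + 1) le_rfl) hα hβ hγ hne (h4 p q hpq)
    rw [abs_mul, abs_mul, hsa _ _ hpq1, hsa _ _ hpq, one_mul, one_mul, abs_of_pos (hlp _),
      abs_of_pos (hlp _)] at e1
    have f1 : P p (q + 1) = P p q := hL3 _ _ e1
    rw [abs_mul, abs_mul, abs_mul, hsa _ _ hpq, hsa _ _ le_rfl, one_mul, one_mul,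
      abs_of_pos (hlp _), abs_of_pos (hlp _), abs_of_pos (div_pos (hlp _) (hlp _))] at e2
    have f2 : lam (P p q) / lam (P (q + 1) (q + 1)) = lam p / lam (q + 1) := by
      rw [e2, mul_div_assoc, div_self (hlp _).ne', mul_one]
    have f3 : lam (P (q + 1) (q + 1)) < lam (P p q) := by
      have g1 : 1 < lam p / lam (q + 1) := by
        rw [one_lt_div (hlp _)]
        exact lam_lt (Nat.lt_succ_of_le hpq)
      rw [← f2, one_lt_div (hlp _)] at g1
      exact g1
    have f4 := hL4 _ _ _ _ (lt_of_lam f3) (Nat.lt_succ_of_le hpq) f2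
    refine ⟨f1, f4.1, f4.2, ?_⟩
    rcases e3 f1 with ⟨a1, a2, a3, a4, a5⟩ | ⟨a1, a2, a3, a4, a5⟩
    · exact Or.inl ⟨a1, a2, a4, a5⟩
    · exact Or.inr ⟨a1, a2⟩
  -- the second alternative is impossible
  have hQge : ∀ p q, p ≤ q → q ≤ Q p q := by
    intro p q hpq
    obtain ⟨-, -, b3, b4⟩ := base p q hpq
    rcases b4 with ⟨c1, c2, -, -⟩ | ⟨c1, c2⟩
    · omega
    · omega
  have step : ∀ p q, p ≤ q → P p q = p ∧ Q p q = q ∧ s p (q + 1) = s p q ∧
      s (q + 1) (q + 1) = s p q := by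
    intro p q hpq
    obtain ⟨b1, b2, b3, b4⟩ := base p q hpq
    have hg := hQge p (q + 1) (Nat.le_succ_of_le hpq)
    rcases b4 with ⟨c1, c2, c3, c4⟩ | ⟨c1, c2⟩
    · refine ⟨b2, by omega, ?_, ?_⟩
      · rw [b1] at c3
        exact mul_right_cancel₀ (hlp _).ne' c3
      · rw [b2, b3] at c4
        have h5 : lam p / lam (q + 1) * (s (q + 1) (q + 1) * lam (q + 1)) =
            s (q + 1) (q + 1) * lam p := by
          have := (hlp (q + 1)).ne'
          field_simp
        rw [h5] at c4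
        exact (mul_right_cancel₀ (hlp _).ne' c4).symm
    · omega
  have hss : ∀ p q, p ≤ q → s p q = s p p := by
    intro p q hpq
    induction q, hpq using Nat.le_induction with
    | base => rfl
    | succ q hq ih => rw [(step p q hq).2.2.1, ih]
  have hs00 : ∀ p, s p p = s 0 0 := by
    intro p
    rcases p with _ | p
    · rfl
    · rw [(step 0 p (Nat.zero_le p)).2.2.2, hss 0 p (Nat.zero_le p)]
  refine ⟨s 0 0, h2 0 0 le_rfl, fun p q hpq => ⟨(step p q hpq).1, (step p q hpq).2.1, ?_⟩⟩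
  rw [hss p q hpq, hs00]

end Pool.Agent.R233.JI
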