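import Pool.Agent.R233.JI.Stm

/-! Piece JI-CORE. -/

set_option autoImplicit false

namespace Pool.Agent.R233.JI

open Pool.Agent.Results.MP_8db9c5_an.NontrivialIsometry

namespace CORex

theorem isum_zero {a : ℕ →₀ ℝ} {n p q : ℕ} (h : ∀ i, n ≤ i → a i = 0) (hp : n ≤ p) :
    isum a p q = 0 := by
  unfold isum
  apply Finset.sum_eq_zero
  intro j hj
  rw [Finset.mem_Icc] at hj
  exact h j (by omega)

theorem nn1_single (i : ℕ) (t : ℝ) : nn1 (Finsupp.single i t) ≤ |t| := by
  unfold nn1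
  by_cases h : t = 0
  · subst h; simp
  · rw [Finsupp.support_single_ne_zero _ h, Finset.sum_singleton]
    simp

theorem le_nn1 (b : ℕ →₀ ℝ) (j : ℕ) : |b j| ≤ nn1 b := by
  unfold nn1
  by_cases h : j ∈ b.support
  · exact Finset.single_le_sum (f := fun i => |b i|) (fun i _ => abs_nonneg _) h
  · rw [Finsupp.notMem_support_iff.mp h, abs_zero]
    exact Finset.sum_nonneg fun i _ => abs_nonneg _

end CORex

open CORex in
theorem tCORE : CORE := by
  intro hLAM hF1 hF2 hF3 hF4 X _ _ x G hS J _ _ _ ι hJ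
  obtain ⟨hl1, hl2, _, _⟩ := hLAM
  have hval : ∀ (F : Fam) (a : ℕ →₀ ℝ), ‖Finsupp.linearCombination ℝ x (bv F a)‖ =
      ‖∑ i, (∑ j ∈ Finset.Icc (F.p i) (F.q i), a j) • x (F.p i)‖ := by
    intro F a
    unfold bv
    rw [map_sum]
    simp only [Finsupp.linearCombination_single]
    rfl
  have K1 : ∀ (F : Fam) (a : ℕ →₀ ℝ), ‖Finsupp.linearCombination ℝ x (bv F a)‖ ≤ ‖ι a‖ := by
    intro F a
    apply (hJ.norm_isLUB a).1
    exact ⟨F.k, F.p, F.q, F.le, F.lt, hval F a⟩
  have K2 : ∀ (a : ℕ →₀ ℝ) (R : ℝ), (∀ F : Fam, ‖Finsupp.linearCombination ℝ x (bv F a)‖ ≤ R) →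
      ‖ι a‖ ≤ R := by
    intro a R h
    apply (hJ.norm_isLUB a).2
    rintro r ⟨k, p, q, h1, h2, rfl⟩
    have := h ⟨k, p, q, h1, h2⟩
    rw [hval] at this
    exact this
  have K3 : ∀ a : ℕ →₀ ℝ, ∃ F : Fam, ‖ι a‖ = ‖Finsupp.linearCombination ℝ x (bv F a)‖ := by
    intro a
    obtain ⟨F0, _⟩ := hF2.1 0 0 le_rfl
    obtain ⟨b, ⟨F, rfl⟩, hmax⟩ := Set.exists_max_image {b | ∃ F : Fam, b = bv F a}
      (fun b => ‖Finsupp.linearCombination ℝ x b‖) (hF4.2 a) ⟨bv F0 a, F0, rfl⟩
    refine ⟨F, le_antisymm (K2 a _ fun F' => hmax _ ⟨F', rfl⟩) (K1 F a)⟩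
  have hlower : ∀ (a : ℕ →₀ ℝ) (p q : ℕ), p ≤ q → lam p * |isum a p q| ≤ ‖ι a‖ := by
    intro a p q hpq
    obtain ⟨F, hF⟩ := hF2.1 p q hpq
    have h1 := hS.le_lam (bv F a) p
    have h2 := K1 F a
    rw [hF a, Finsupp.single_eq_same] at h1
    rw [hF a] at h2
    exact h1.trans h2
  have hlp : ∀ i, 0 < lam i := fun i => lt_trans one_pos (hl1 i)
  refine ⟨hJ.dense, hlower, ?_, ?_, ?_, ?_⟩
  · -- att
    intro a
    obtain ⟨F, hF⟩ := K3 a
    rcases hS.att (bv F a) with h | ⟨i, h⟩
    · right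
      refine ⟨a.support.sup id + 1, fun n hn t ht => ?_⟩
      have ha : ∀ i, n ≤ i → a i = 0 := by
        intro i hi
        by_contra hne
        have h1 : i ∈ a.support := Finsupp.mem_support_iff.mpr hne
        have h2 : i ≤ a.support.sup id := Finset.le_sup (f := id) h1
        omega
      obtain ⟨F', hF'⟩ := hF3 F a n ha
      have hb : ∀ i, n ≤ i → bv F a i = 0 := by
        intro i hi
        rcases hF1 F i with h1 | ⟨q, _, h1⟩
        · exact h1 a
        · rw [h1 a]
          exact isum_zero ha hi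
      have h1 := hS.strict (bv F a) n t hb ht
      have h2 := hS.le_G (bv F a + Finsupp.single n t)
      have h3 := K1 F' (a + Finsupp.single n t)
      rw [hF' t] at h3
      rw [hF]
      calc ‖Finsupp.linearCombination ℝ x (bv F a)‖ = G (bv F a) := h
        _ < G (bv F a + Finsupp.single n t) := h1
        _ ≤ _ := h2
        _ ≤ _ := h3
    · left
      rcases hF1 F i with h1 | ⟨q, hq, h1⟩
      · have h2 : ‖ι a‖ = 0 := by
          rw [hF]
          refine h.trans ?_
          rw [h1 a, abs_zero, mul_zero]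
        refine ⟨0, 0, le_rfl, le_antisymm ?_ (hlower a 0 0 le_rfl)⟩
        rw [h2]
        exact mul_nonneg (hlp 0).le (abs_nonneg _)
      · refine ⟨i, q, hq, ?_⟩
        rw [hF]
        refine h.trans ?_
        rw [h1 a]
  · -- upper
    intro a a' R h1 h2
    apply K2
    intro F
    rcases hS.att (bv F a) with h | ⟨i, h⟩
    · refine (le_of_eq h).trans ?_
      have h3 : bv F a = bv F a' + bv F (a - a') := by
        rw [← hF2.2.1]
        congr 1
        abel
      have h4 := hS.add (bv F a') (bv F (a - a'))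
      rw [← h3] at h4
      have h5 := hS.small (bv F a')
      have h6 := hF2.2.2 F a'
      have h7 : G (bv F (a - a')) ≤ ‖ι (a - a')‖ := (hS.le_G (bv F (a - a'))).trans (K1 F (a - a'))
      linarith
    · refine (le_of_eq h).trans ?_
      rcases hF1 F i with h3 | ⟨q, hq, h3⟩
      · rw [h3 a, abs_zero, mul_zero]
        exact (mul_nonneg (hlp 0).le (abs_nonneg _)).trans (h1 0 0 le_rfl)
      · rw [h3 a]
        exact h1 i q hq
  · -- trunc
    intro a n
    apply K2
    intro F
    rcases hF4.1 F a n with h | ⟨F', h⟩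
    · rw [h, map_zero, norm_zero]
      exact norm_nonneg _
    · rw [h]
      exact K1 F' a
  · -- single
    intro i t
    apply K2
    intro F
    have h0 : nn1 (bv F (Finsupp.single i t)) ≤ |t| := (hF2.2.2 F _).trans (nn1_single i t)
    have ht := abs_nonneg t
    rcases hS.att (bv F (Finsupp.single i t)) with h | ⟨j, h⟩
    · refine (le_of_eq h).trans ?_
      have := hS.small (bv F (Finsupp.single i t))
      linarith
    · refine (le_of_eq h).trans ?_
      have h1 := (le_nn1 (bv F (Finsupp.single i t)) j).trans h0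
      have h2 := hl2 j
      have h3 := hlp j
      have h4 := abs_nonneg (bv F (Finsupp.single i t) j)
      nlinarith

end Pool.Agent.R233.JI
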