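import Pool.Agent.R233.JI.Stm

set_option autoImplicit false

namespace Pool.Agent.R233.JI

theorem tEX : EX := by
  intro p q hpq
  let c : ℝ := if 1 ≤ p then 1 else 0
  let a : ℕ →₀ ℝ := Finsupp.single p 1 + Finsupp.single q 1 - Finsupp.single (q + 1) 1 -
    Finsupp.single (p - 1) c
  have hc1 : |c| ≤ 1 := by
    show |(if 1 ≤ p then (1 : ℝ) else 0)| ≤ 1
    split_ifs <;> norm_num
  have ha : ∀ k, a k = (if p = k then (1 : ℝ) else 0) + (if q = k then 1 else 0) -
      (if q + 1 = k then 1 else 0) - (if p - 1 = k then c else 0) := by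
    intro k
    show (Finsupp.single p (1 : ℝ) + Finsupp.single q 1 - Finsupp.single (q + 1) 1 -
      Finsupp.single (p - 1) c : ℕ →₀ ℝ) k = _
    rw [Finsupp.sub_apply, Finsupp.sub_apply, Finsupp.add_apply, Finsupp.single_apply,
      Finsupp.single_apply, Finsupp.single_apply, Finsupp.single_apply]
  have hs : ∀ i j, isum a i j = (if i ≤ p ∧ p ≤ j then (1 : ℝ) else 0) +
      (if i ≤ q ∧ q ≤ j then 1 else 0) - (if i ≤ q + 1 ∧ q + 1 ≤ j then 1 else 0) -
      (if i ≤ p - 1 ∧ p - 1 ≤ j then c else 0) := by
    intro i j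
    unfold isum
    simp only [ha, Finset.sum_sub_distrib, Finset.sum_add_distrib, Finset.sum_ite_eq,
      Finset.mem_Icc]
  refine ⟨a, ?_, ?_, ?_⟩
  · rw [hs, if_pos ⟨le_rfl, hpq⟩, if_pos ⟨hpq, le_rfl⟩, if_neg (by omega)]
    split_ifs with h
    · have : c = 0 := if_neg (by omega)
      rw [this]
      norm_num
    · norm_num
  · have hsub : a.support ⊆ Finset.range (q + 2) := by
      intro k hk
      rw [Finset.mem_range]
      by_contra hcon
      have h0 : a k = 0 := by
        rw [ha, if_neg (by omega), if_neg (by omega), if_neg (by omega), if_neg (by omega)]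
        norm_num
      exact (Finsupp.mem_support_iff.1 hk) h0
    have h1 : nn1 a = ∑ k ∈ Finset.range (q + 2), |a k| := by
      unfold nn1
      refine Finset.sum_subset hsub fun k _ hk => ?_
      rw [Finsupp.notMem_support_iff.1 hk, abs_zero]
    rw [h1]
    have h2 : ∀ k ∈ Finset.range (q + 2), |a k| ≤ (if p = k then (1 : ℝ) else 0) +
        (if q = k then 1 else 0) + (if q + 1 = k then 1 else 0) +
        (if p - 1 = k then |c| else 0) := by
      intro k _
      rw [ha]
      have t1 : ∀ (P : Prop) [Decidable P] (x : ℝ),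
          |(if P then x else 0)| = if P then |x| else 0 := by
        intro P _ x
        split_ifs <;> simp
      refine (abs_sub _ _).trans ?_
      refine add_le_add ((abs_sub _ _).trans (add_le_add ((abs_add_le _ _).trans ?_) ?_)) ?_
      · rw [t1, t1, abs_one]
      · rw [t1, abs_one]
      · rw [t1]
    refine (Finset.sum_le_sum h2).trans ?_
    simp only [Finset.sum_add_distrib, Finset.sum_ite_eq, Finset.mem_range]
    rw [if_pos (by omega), if_pos (by omega), if_pos (by omega), if_pos (by omega)]
    linarith
  · intro i j hij hne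
    have hne' : ¬ (i = p ∧ j = q) := fun h => hne (Prod.ext h.1 h.2)
    rw [hs]
    by_cases hp : 1 ≤ p
    · have : c = 1 := if_pos hp
      rw [this]
      split_ifs <;> first | (exfalso; omega) | norm_num
    · have : c = 0 := if_neg hp
      rw [this]
      split_ifs <;> first | (exfalso; omega) | norm_num

end Pool.Agent.R233.JI
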