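import Pool.Agent.R233.JI.Stm

set_option autoImplicit false

namespace Pool.Agent.R233.JI

open Pool.Agent.Results.MP_8db9c5_an.NontrivialIsometry
open scoped ENNReal

namespace ExjAux

/-- systems of successive intervals -/
abbrev Sys : Type := Σ k : ℕ, {p : (Fin (k + 1) → ℕ) × (Fin (k + 1) → ℕ) //
  (∀ i, p.1 i ≤ p.2 i) ∧ ∀ i j, i < j → p.2 i < p.1 j}

section
variable {Y : Type} [NormedAddCommGroup Y] [NormedSpace ℝ Y] (y : ℕ → Y)

/-- the vector of a system of intervals -/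
noncomputable def sysV (a : ℕ →₀ ℝ) (k : ℕ) (p q : Fin (k + 1) → ℕ) : Y :=
  ∑ i, (∑ j ∈ Finset.Icc (p i) (q i), a j) • y (p i)

theorem sysV_bound {K : ℝ} (hy : ∀ i, ‖y i‖ ≤ K) (a : ℕ →₀ ℝ) (k : ℕ) (p q : Fin (k + 1) → ℕ)
    (h2 : ∀ i j, i < j → q i < p j) : ‖sysV y a k p q‖ ≤ K * ∑ j ∈ a.support, |a j| := by
  classical
  have hK : 0 ≤ K := (norm_nonneg _).trans (hy 0)
  unfold sysV
  refine (norm_sum_le _ _).trans ?_
  have e1 : ∀ i, ‖(∑ j ∈ Finset.Icc (p i) (q i), a j) • y (p i)‖ ≤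
      K * ∑ j ∈ Finset.Icc (p i) (q i), |a j| := by
    intro i
    rw [norm_smul, mul_comm, Real.norm_eq_abs]
    exact mul_le_mul (hy _) (Finset.abs_sum_le_sum_abs _ _) (abs_nonneg _) hK
  refine (Finset.sum_le_sum (fun i _ => e1 i)).trans ?_
  rw [← Finset.mul_sum]
  refine mul_le_mul_of_nonneg_left ?_ hK
  rw [← Finset.sum_biUnion]
  · have : ∑ j ∈ (Finset.univ.biUnion fun i => Finset.Icc (p i) (q i)), |a j| ≤
        ∑ j ∈ (Finset.univ.biUnion fun i => Finset.Icc (p i) (q i)) ∪ a.support, |a j| :=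
      Finset.sum_le_sum_of_subset_of_nonneg Finset.subset_union_left (fun _ _ _ => abs_nonneg _)
    refine this.trans (le_of_eq ?_)
    symm
    apply Finset.sum_subset Finset.subset_union_right
    intro j _ hj
    rw [Finsupp.notMem_support_iff.mp hj, abs_zero]
  · intro i _ j _ hij
    rw [Function.onFun, Finset.disjoint_left]
    intro t ht ht'
    rw [Finset.mem_Icc] at ht ht'
    rcases lt_or_gt_of_ne hij with h | h
    · have := h2 i j h; omega
    · have := h2 j i h; omega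

/-- The embedding of `c₀₀` into a large space of bounded families. -/
noncomputable def embX {K : ℝ} (hy : ∀ i, ‖y i‖ ≤ K) :
    (ℕ →₀ ℝ) →ₗ[ℝ] lp (fun _ : Sys => Y) ⊤ where
  toFun a := ⟨fun t => sysV y a t.1 t.2.1.1 t.2.1.2, memℓp_infty
    ⟨K * ∑ j ∈ a.support, |a j|, by
      rintro _ ⟨t, rfl⟩
      exact sysV_bound y hy a _ _ _ t.2.2.2⟩⟩
  map_add' a b := by
    apply lp.ext
    funext t
    rw [lp.coeFn_add, Pi.add_apply]
    simp only [sysV, Finsupp.add_apply, Finset.sum_add_distrib, add_smul]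
  map_smul' c a := by
    apply lp.ext
    funext t
    rw [RingHom.id_apply, lp.coeFn_smul, Pi.smul_apply]
    simp only [sysV, Finsupp.smul_apply, smul_eq_mul, ← Finset.mul_sum, Finset.smul_sum,
      mul_smul]

/-- the Jamesification exists, complete space -/
theorem exists_james [CompleteSpace Y] {K : ℝ} (hy : ∀ i, ‖y i‖ ≤ K) :
    ∃ (J : Type) (_ : NormedAddCommGroup J)
    (_ : NormedSpace ℝ J) (_ : CompleteSpace J) (ι : (ℕ →₀ ℝ) →ₗ[ℝ] J),
    IsJamesification y J ι := by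
  have hcomp : CompleteSpace (LinearMap.range (embX y hy)).topologicalClosure :=
    (Submodule.isClosed_topologicalClosure (LinearMap.range (embX y hy))).completeSpace_coe
  refine ⟨(LinearMap.range (embX y hy)).topologicalClosure, inferInstance, inferInstance, hcomp,
    LinearMap.codRestrict _ (embX y hy) (fun a => Submodule.le_topologicalClosure _ ⟨a, rfl⟩),
    ?_, ?_⟩
  · intro z
    rw [Metric.mem_closure_iff]
    intro ε hε
    have hz : (z : lp (fun _ : Sys => Y) ⊤) ∈ closure (LinearMap.range (embX y hy) :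
        Set (lp (fun _ : Sys => Y) ⊤)) := z.2
    rw [Metric.mem_closure_iff] at hz
    obtain ⟨w, ⟨a, rfl⟩, hw⟩ := hz ε hε
    exact ⟨_, ⟨a, rfl⟩, hw⟩
  · intro a
    have h2 : jamesValues y a = Set.range (fun t : Sys => ‖embX y hy a t‖) := by
      ext r
      constructor
      · rintro ⟨k, p, q, e1, e2, rfl⟩
        exact ⟨⟨k, ⟨(p, q), e1, e2⟩⟩, rfl⟩
      · rintro ⟨⟨k, ⟨⟨p, q⟩, e1, e2⟩⟩, rfl⟩
        exact ⟨k, p, q, e1, e2, rfl⟩
    rw [h2]
    have : Nonempty Sys := ⟨⟨0, ⟨(fun _ => 0, fun _ => 0), fun _ => le_rfl, fun i j hij => by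
      have h1 := i.2
      have h2 := j.2
      have h3 : i.val < j.val := hij
      omega⟩⟩⟩
    exact lp.isLUB_norm (embX y hy a)

end

end ExjAux

open ExjAux in
theorem tEXJ : EXJ := by
  intro X _ _ x K hK _
  obtain ⟨Λ, hΛ⟩ : ∃ Λ : X →ₗᵢ[ℝ] UniformSpace.Completion X,
    Λ = UniformSpace.Completion.toComplₗᵢ := ⟨_, rfl⟩
  obtain ⟨J, i1, i2, i3, ι, hι⟩ := exists_james (fun i => Λ (x i)) (K := K)
    (fun i => by rw [Λ.norm_map]; exact hK i)
  refine ⟨J, i1, i2, i3, ι, hι.dense, fun a => ?_⟩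
  have h1 := hι.norm_isLUB a
  have h2 : jamesValues (fun i => Λ (x i)) a = jamesValues x a := by
    ext r
    constructor
    · rintro ⟨k, p, q, e1, e2, rfl⟩
      refine ⟨k, p, q, e1, e2, ?_⟩
      rw [← Λ.norm_map, map_sum]
      simp only [map_smul]
    · rintro ⟨k, p, q, e1, e2, rfl⟩
      refine ⟨k, p, q, e1, e2, ?_⟩
      rw [← Λ.norm_map, map_sum]
      simp only [map_smul]
  rwa [h2] at h1

end Pool.Agent.R233.JI
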