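import Pool.Agent.R233.JI.Stm

set_option autoImplicit false

namespace Pool.Agent.R233.JI

open Finset

theorem fam_p_lt (F : Fam) (i j : Fin (F.k + 1)) (h : i < j) : F.p i < F.p j :=
  lt_of_le_of_lt (F.le i) (F.lt i j h)

theorem fam_p_inj (F : Fam) : Function.Injective F.p := by
  intro i j h
  rcases lt_trichotomy i j with h1 | h1 | h1
  · exact absurd h (ne_of_lt (fam_p_lt F i j h1))
  · exact h1
  · exact absurd h (ne_of_gt (fam_p_lt F j i h1))

theorem bv_apply (F : Fam) (a : ℕ →₀ ℝ) (i : ℕ) :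
    bv F a i = ∑ k, (if F.p k = i then isum a (F.p k) (F.q k) else 0) := by
  unfold bv
  rw [Finsupp.finsetSum_apply]
  exact Finset.sum_congr rfl fun k _ => by rw [Finsupp.single_apply]

theorem bv_at (F : Fam) (a : ℕ →₀ ℝ) (k : Fin (F.k + 1)) :
    bv F a (F.p k) = isum a (F.p k) (F.q k) := by
  rw [bv_apply, Finset.sum_eq_single k]
  · rw [if_pos rfl]
  · intro j _ hj
    rw [if_neg]
    exact fun h => hj (fam_p_inj F h)
  · intro h
    exact absurd (Finset.mem_univ k) h

theorem bv_off (F : Fam) (a : ℕ →₀ ℝ) (i : ℕ) (h : ∀ k, F.p k ≠ i) : bv F a i = 0 := by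
  rw [bv_apply]
  exact Finset.sum_eq_zero fun k _ => if_neg (h k)

theorem tF1 : F1 := by
  intro F i
  by_cases h : ∃ k, F.p k = i
  · obtain ⟨k, rfl⟩ := h
    exact Or.inr ⟨F.q k, F.le k, fun a => bv_at F a k⟩
  · push Not at h
    exact Or.inl fun a => bv_off F a i h

theorem isum_add (a a' : ℕ →₀ ℝ) (p q : ℕ) : isum (a + a') p q = isum a p q + isum a' p q := by
  unfold isum
  rw [← Finset.sum_add_distrib]
  exact Finset.sum_congr rfl fun j _ => by rw [Finsupp.add_apply]

theorem nn1_eq (b : ℕ →₀ ℝ) (S : Finset ℕ) (h : b.support ⊆ S) : nn1 b = ∑ i ∈ S, |b i| := by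
  unfold nn1
  refine Finset.sum_subset h fun i _ hi => ?_
  rw [Finsupp.notMem_support_iff.1 hi, abs_zero]

theorem sum_le_nn1 (b : ℕ →₀ ℝ) (S : Finset ℕ) : ∑ i ∈ S, |b i| ≤ nn1 b := by
  rw [nn1_eq b (b.support ∪ S) Finset.subset_union_left]
  exact Finset.sum_le_sum_of_subset_of_nonneg Finset.subset_union_right
    fun i _ _ => abs_nonneg _

theorem tF2 : F2 := by
  refine ⟨?_, ?_, ?_⟩
  · intro p q hpq
    refine ⟨⟨0, fun _ => p, fun _ => q, fun _ => hpq, ?_⟩, ?_⟩
    · intro i j hij
      exfalso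
      have h2 := i.2
      have h3 := j.2
      have h4 : (i : ℕ) < (j : ℕ) := hij
      omega
    · intro a
      unfold bv
      simp
  · intro F a a'
    unfold bv
    rw [← Finset.sum_add_distrib]
    exact Finset.sum_congr rfl fun j _ => by rw [isum_add, Finsupp.single_add]
  · intro F a
    have hS : (bv F a).support ⊆ Finset.univ.image F.p := by
      intro i hi
      rw [Finsupp.mem_support_iff] at hi
      by_contra hc
      apply hi
      apply bv_off
      intro k hk
      exact hc (Finset.mem_image.2 ⟨k, Finset.mem_univ k, hk⟩)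
    rw [nn1_eq _ _ hS, Finset.sum_image (fun i _ j _ h => fam_p_inj F h)]
    have h1 : ∀ k ∈ (Finset.univ : Finset (Fin (F.k + 1))),
        |bv F a (F.p k)| ≤ ∑ j ∈ Finset.Icc (F.p k) (F.q k), |a j| := by
      intro k _
      rw [bv_at]
      exact Finset.abs_sum_le_sum_abs _ _
    refine (Finset.sum_le_sum h1).trans ?_
    rw [← Finset.sum_biUnion]
    · exact sum_le_nn1 a _
    · intro i _ j _ hij
      rw [Function.onFun, Finset.disjoint_left]
      intro x hx hy
      rw [Finset.mem_Icc] at hx hy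
      rcases lt_or_gt_of_ne hij with h | h
      · have := F.lt i j h
        omega
      · have := F.lt j i h
        omega

end Pool.Agent.R233.JI
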