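import Pool.Agent.R233.JI.Stm

set_option autoImplicit false

namespace Pool.Agent.R233.JI

namespace F3Aux

theorem isum_cut (a : ℕ →₀ ℝ) (n p q : ℕ) (t : ℝ) (ha : ∀ i, n ≤ i → a i = 0) (hp : p < n) :
    isum (a + Finsupp.single n t) p (min q (n - 1)) = isum a p q := by
  unfold isum
  have h1 : ∑ j ∈ Finset.Icc p (min q (n - 1)), (a + Finsupp.single n t) j =
      ∑ j ∈ Finset.Icc p (min q (n - 1)), a j := by
    refine Finset.sum_congr rfl fun j hj => ?_
    rw [Finset.mem_Icc] at hj
    have hjn : n ≠ j := by
      have := hj.2.trans (min_le_right _ _)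
      omega
    rw [Finsupp.add_apply, Finsupp.single_eq_of_ne' hjn, add_zero]
  rw [h1]
  apply Finset.sum_subset
  · intro j hj
    rw [Finset.mem_Icc] at hj ⊢
    exact ⟨hj.1, hj.2.trans (min_le_left _ _)⟩
  · intro j hj hj'
    rw [Finset.mem_Icc] at hj hj'
    apply ha
    by_contra hc
    apply hj'
    refine ⟨hj.1, le_min hj.2 (by omega)⟩

theorem isum_zero (a : ℕ →₀ ℝ) (n p q : ℕ) (ha : ∀ i, n ≤ i → a i = 0) (hp : n ≤ p) :
    isum a p q = 0 := by
  unfold isum
  apply Finset.sum_eq_zero
  intro j hj
  rw [Finset.mem_Icc] at hj
  exact ha j (hp.trans hj.1)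

theorem isum_nn (a : ℕ →₀ ℝ) (n : ℕ) (t : ℝ) (ha : ∀ i, n ≤ i → a i = 0) :
    isum (a + Finsupp.single n t) n n = t := by
  unfold isum
  rw [Finset.Icc_self, Finset.sum_singleton, Finsupp.add_apply, Finsupp.single_eq_same,
    ha n (le_refl n), zero_add]

theorem aux (a : ℕ →₀ ℝ) (n : ℕ) (ha : ∀ i, n ≤ i → a i = 0) : ∀ (k : ℕ)
    (p q : Fin (k + 1) → ℕ), (∀ i, p i ≤ q i) → (∀ i j, i < j → q i < p j) →
    ∃ F' : Fam, ∀ t : ℝ, bv F' (a + Finsupp.single n t) =
      (∑ i, Finsupp.single (p i) (isum a (p i) (q i))) + Finsupp.single n t := by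
  intro k
  induction k with
  | zero =>
    intro p q hle hlt
    by_cases h : p (Fin.last 0) < n
    · refine ⟨⟨1, Fin.snoc p n, Fin.snoc (fun i => min (q i) (n - 1)) n, ?_, ?_⟩, ?_⟩
      · intro i
        refine Fin.lastCases ?_ (fun i => ?_) i
        · simp only [Fin.snoc_last, le_refl]
        · simp only [Fin.snoc_castSucc]
          have hi : i = Fin.last 0 := Subsingleton.elim _ _
          subst hi
          exact le_min (hle _) (by omega)
      · intro i j
        refine Fin.lastCases ?_ (fun j => ?_) j
        · refine Fin.lastCases ?_ (fun i => ?_) i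
          · intro hh
            exact absurd hh (lt_irrefl _)
          · intro _
            simp only [Fin.snoc_castSucc, Fin.snoc_last]
            have := min_le_right (q i) (n - 1)
            omega
        · refine Fin.lastCases ?_ (fun i => ?_) i
          · intro hh
            exact absurd hh (not_lt.2 (Fin.le_last _))
          · intro hh
            have hij : i = j := Subsingleton.elim _ _
            subst hij
            exact absurd hh (lt_irrefl _)
      · intro t
        unfold bv
        change ∑ i : Fin (1 + 1), _ = _
        rw [Fin.sum_univ_castSucc]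
        simp only [Fin.snoc_castSucc, Fin.snoc_last]
        rw [isum_nn a n t ha]
        congr 1
        refine Finset.sum_congr rfl fun i _ => ?_
        have hi : i = Fin.last 0 := Subsingleton.elim _ _
        subst hi
        rw [isum_cut a n _ _ t ha h]
    · refine ⟨⟨0, fun _ => n, fun _ => n, fun _ => le_refl _, ?_⟩, ?_⟩
      · intro i j hij
        exfalso
        have h1 := i.2
        have h2 := j.2
        have h3 : i.1 < j.1 := hij
        omega
      · intro t
        unfold bv
        change ∑ i : Fin (0 + 1), _ = _
        rw [Fin.sum_univ_castSucc, Fin.sum_univ_castSucc]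
        simp only [Finset.univ_eq_empty, Finset.sum_empty, zero_add]
        rw [isum_nn a n t ha, isum_zero a n _ _ ha (not_lt.1 h), Finsupp.single_zero, zero_add]
  | succ k ih =>
    intro p q hle hlt
    by_cases h : p (Fin.last (k + 1)) < n
    · have hall : ∀ i, p i < n := by
        intro i
        rcases eq_or_lt_of_le (Fin.le_last i) with hi | hi
        · rw [hi]
          exact h
        · have := hlt i _ hi
          have := hle i
          omega
      refine ⟨⟨k + 1 + 1, Fin.snoc p n, Fin.snoc (fun i => min (q i) (n - 1)) n, ?_, ?_⟩, ?_⟩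
      · intro i
        refine Fin.lastCases ?_ (fun i => ?_) i
        · simp only [Fin.snoc_last, le_refl]
        · simp only [Fin.snoc_castSucc]
          have := hall i
          exact le_min (hle _) (by omega)
      · intro i j
        refine Fin.lastCases ?_ (fun j => ?_) j
        · refine Fin.lastCases ?_ (fun i => ?_) i
          · intro hh
            exact absurd hh (lt_irrefl _)
          · intro _
            simp only [Fin.snoc_castSucc, Fin.snoc_last]
            have := min_le_right (q i) (n - 1)
            have := hall i
            omega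
        · refine Fin.lastCases ?_ (fun i => ?_) i
          · intro hh
            exact absurd hh (not_lt.2 (Fin.le_last _))
          · intro hh
            simp only [Fin.snoc_castSucc]
            exact (min_le_left _ _).trans_lt (hlt i j (Fin.castSucc_lt_castSucc_iff.1 hh))
      · intro t
        unfold bv
        change ∑ i : Fin (k + 1 + 1 + 1), _ = _
        rw [Fin.sum_univ_castSucc]
        simp only [Fin.snoc_castSucc, Fin.snoc_last]
        rw [isum_nn a n t ha]
        congr 1
        refine Finset.sum_congr rfl fun i _ => ?_
        rw [isum_cut a n _ _ t ha (hall i)]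
    · obtain ⟨F', hF'⟩ := ih (fun i => p i.castSucc) (fun i => q i.castSucc)
        (fun i => hle _) (fun i j hij => hlt _ _ (Fin.castSucc_lt_castSucc_iff.2 hij))
      refine ⟨F', fun t => ?_⟩
      rw [hF' t, Fin.sum_univ_castSucc (f := fun i => Finsupp.single (p i) (isum a (p i) (q i))),
        isum_zero a n _ _ ha (not_lt.1 h), Finsupp.single_zero, add_zero]

end F3Aux

theorem tF3 : F3 := by
  intro F a n ha
  exact F3Aux.aux a n ha F.k F.p F.q F.le F.lt

end Pool.Agent.R233.JI
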