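import Pool.Agent.R233.JI.Stm

set_option autoImplicit false

namespace Pool.Agent.R233.JI

theorem F4_isum (a : ℕ →₀ ℝ) (n p q : ℕ) :
    isum (a.filter (fun i => i < n)) p q = if p < n then isum a p (min q (n - 1)) else 0 := by
  classical
  unfold isum
  simp only [Finsupp.filter_apply]
  rw [← Finset.sum_filter]
  split_ifs with h
  · apply Finset.sum_congr _ (fun _ _ => rfl)
    ext j
    simp only [Finset.mem_filter, Finset.mem_Icc, le_min_iff]
    omega
  · apply Finset.sum_eq_zero
    intro j hj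
    simp only [Finset.mem_filter, Finset.mem_Icc] at hj
    omega

theorem F4_bv (F : Fam) (a : ℕ →₀ ℝ) (n : ℕ) :
    bv F (a.filter (fun i => i < n)) =
      ∑ i ∈ Finset.univ.filter (fun i => F.p i < n),
        Finsupp.single (F.p i) (isum a (F.p i) (min (F.q i) (n - 1))) := by
  classical
  unfold bv
  rw [Finset.sum_filter]
  apply Finset.sum_congr rfl
  intro i _
  rw [F4_isum]
  split_ifs with h
  · rfl
  · simp

theorem F4_plt (F : Fam) (i j : Fin (F.k + 1)) (h : i < j) : F.p i < F.p j :=
  lt_of_le_of_lt (F.le i) (F.lt i j h)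

theorem F4_ple (F : Fam) (i j : Fin (F.k + 1)) (h : i ≤ j) : F.p i ≤ F.p j := by
  rcases eq_or_lt_of_le h with h | h
  · rw [h]
  · exact (F4_plt F i j h).le

theorem F4_inj (F : Fam) (i j : Fin (F.k + 1)) (h : F.p i = F.p j) : i = j := by
  rcases lt_trichotomy i j with h1 | h1 | h1
  · have := F4_plt F i j h1; omega
  · exact h1
  · have := F4_plt F j i h1; omega

theorem F4_cut (F : Fam) (n : ℕ) :
    ∃ m : ℕ, m ≤ F.k + 1 ∧ ∀ i : Fin (F.k + 1), F.p i < n ↔ i.val < m := by
  classical
  by_cases hall : ∀ i, F.p i < n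
  · exact ⟨F.k + 1, le_rfl, fun i => ⟨fun _ => i.2, fun _ => hall i⟩⟩
  · push Not at hall
    have hex : ∃ m : ℕ, ∃ h : m < F.k + 1, n ≤ F.p ⟨m, h⟩ := by
      obtain ⟨i, hi⟩ := hall
      exact ⟨i.1, i.2, hi⟩
    obtain ⟨h1, h2⟩ := Nat.find_spec hex
    refine ⟨Nat.find hex, h1.le, fun i => ⟨fun h => ?_, fun h => ?_⟩⟩
    · by_contra hc
      push Not at hc
      have := F4_ple F ⟨Nat.find hex, h1⟩ i hc
      omega
    · by_contra hc
      push Not at hc
      have := Nat.find_min' hex ⟨i.2, hc⟩
      omega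

theorem F4_trunc (F : Fam) (a : ℕ →₀ ℝ) (n : ℕ) : bv F (a.filter (fun i => i < n)) = 0 ∨
    ∃ F' : Fam, bv F (a.filter (fun i => i < n)) = bv F' a := by
  classical
  obtain ⟨m, hm, hcut⟩ := F4_cut F n
  rw [F4_bv]
  rcases Nat.eq_zero_or_pos m with h0 | h0
  · left
    apply Finset.sum_eq_zero
    intro i hi
    simp only [Finset.mem_filter, Finset.mem_univ, true_and] at hi
    have := (hcut i).mp hi
    omega
  · right
    obtain ⟨k', rfl⟩ : ∃ k', m = k' + 1 := ⟨m - 1, by omega⟩
    let e : Fin (k' + 1) → Fin (F.k + 1) := fun i => ⟨i.1, by have := i.2; omega⟩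
    have hlt : ∀ i : Fin (k' + 1), F.p (e i) < n := fun i => (hcut (e i)).mpr i.2
    refine ⟨⟨k', fun i => F.p (e i), fun i => min (F.q (e i)) (n - 1), ?_, ?_⟩, ?_⟩
    · intro i
      have h1 := F.le (e i)
      have h2 := hlt i
      show F.p (e i) ≤ min (F.q (e i)) (n - 1)
      rw [le_min_iff]
      omega
    · intro i j hij
      have h1 : F.q (e i) < F.p (e j) := F.lt (e i) (e j) (by
        show (e i).val < (e j).val
        exact hij)
      show min (F.q (e i)) (n - 1) < F.p (e j)
      exact lt_of_le_of_lt (min_le_left _ _) h1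
    · unfold bv
      symm
      apply Finset.sum_bij (fun (i : Fin (k' + 1)) _ => e i)
      · intro i _
        simp only [Finset.mem_filter, Finset.mem_univ, true_and]
        exact hlt i
      · intro i _ j _ h
        have : (e i).val = (e j).val := by rw [h]
        exact Fin.ext this
      · intro b hb
        simp only [Finset.mem_filter, Finset.mem_univ, true_and] at hb
        exact ⟨⟨b.1, (hcut b).mp hb⟩, Finset.mem_univ _, rfl⟩
      · intro i _
        rfl

theorem F4_fin (a : ℕ →₀ ℝ) : {b | ∃ F : Fam, b = bv F a}.Finite := by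
  classical
  obtain ⟨n, hn⟩ : ∃ n : ℕ, ∀ i, n ≤ i → a i = 0 := by
    refine ⟨a.support.sup id + 1, fun i hi => ?_⟩
    by_contra h
    have : i ≤ a.support.sup id := Finset.le_sup (f := id) (Finsupp.mem_support_iff.mpr h)
    omega
  have ha : a.filter (fun i => i < n) = a := by
    rw [Finsupp.filter_eq_self_iff]
    intro i hi
    by_contra h
    exact hi (hn i (by omega))
  apply Set.Finite.subset (((Finset.range n ×ˢ Finset.range (n + 1)).powerset.image
    (fun S : Finset (ℕ × ℕ) => ∑ x ∈ S, Finsupp.single x.1 (isum a x.1 x.2))).finite_toSet)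
  rintro b ⟨F, rfl⟩
  rw [Finset.coe_image, Set.mem_image]
  refine ⟨(Finset.univ.filter (fun i => F.p i < n)).image
    (fun i => (F.p i, min (F.q i) (n - 1))), ?_, ?_⟩
  · rw [Finset.mem_coe, Finset.mem_powerset]
    intro x hx
    simp only [Finset.mem_image, Finset.mem_filter, Finset.mem_univ, true_and] at hx
    obtain ⟨i, hi, rfl⟩ := hx
    simp only [Finset.mem_product, Finset.mem_range]
    refine ⟨hi, ?_⟩
    have := min_le_right (F.q i) (n - 1)
    omega
  · rw [Finset.sum_image]
    · conv_rhs => rw [← ha]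
      rw [F4_bv]
    · intro i _ j _ h
      simp only [Prod.mk.injEq] at h
      exact F4_inj F i j h.1

theorem tF4 : F4 := ⟨F4_trunc, F4_fin⟩

end Pool.Agent.R233.JI
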