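import Mathlib
import Pool.Agent.Results.MP_8db9c5_an.NontrivialIsometry

set_option autoImplicit false

namespace Pool.Agent.R233.JI

open Pool.Agent.Results.MP_8db9c5_an.NontrivialIsometry

/-- the weights -/
noncomputable def lam (i : ℕ) : ℝ := Real.exp ((1 / 2 : ℝ) ^ i / 4)

/-- interval sums -/
noncomputable def isum (a : ℕ →₀ ℝ) (p q : ℕ) : ℝ := ∑ j ∈ Finset.Icc p q, a j

/-- the l1 norm -/
noncomputable def nn1 (a : ℕ →₀ ℝ) : ℝ := ∑ i ∈ a.support, |a i|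

/-- spike structure of a norm `M` on finitely supported sequences -/
structure Spk (M G : (ℕ →₀ ℝ) → ℝ) : Prop where
  le_lam : ∀ (b : ℕ →₀ ℝ) (i : ℕ), lam i * |b i| ≤ M b
  le_G : ∀ b : ℕ →₀ ℝ, G b ≤ M b
  att : ∀ b : ℕ →₀ ℝ, M b = G b ∨ ∃ i, M b = lam i * |b i|
  add : ∀ b b' : ℕ →₀ ℝ, G (b + b') ≤ G b + G b'
  small : ∀ b : ℕ →₀ ℝ, G b ≤ nn1 b / 8
  strict : ∀ (b : ℕ →₀ ℝ) (n : ℕ) (t : ℝ), (∀ i, n ≤ i → b i = 0) → t ≠ 0 →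
    G b < G (b + Finsupp.single n t)

/-- the facts on the Jamesification norm that are used -/
structure Core {J : Type} [NormedAddCommGroup J] [NormedSpace ℝ J]
    (ι : (ℕ →₀ ℝ) →ₗ[ℝ] J) : Prop where
  dense : DenseRange ι
  lower : ∀ (a : ℕ →₀ ℝ) (p q : ℕ), p ≤ q → lam p * |isum a p q| ≤ ‖ι a‖
  att : ∀ a : ℕ →₀ ℝ, (∃ p q, p ≤ q ∧ ‖ι a‖ = lam p * |isum a p q|) ∨
    (∃ n0, ∀ n, n0 ≤ n → ∀ t : ℝ, t ≠ 0 → ‖ι a‖ < ‖ι (a + Finsupp.single n t)‖)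
  upper : ∀ (a a' : ℕ →₀ ℝ) (R : ℝ), (∀ p q, p ≤ q → lam p * |isum a p q| ≤ R) →
    nn1 a' / 8 + ‖ι (a - a')‖ ≤ R → ‖ι a‖ ≤ R
  trunc : ∀ (a : ℕ →₀ ℝ) (n : ℕ), ‖ι (a.filter (fun i => i < n))‖ ≤ ‖ι a‖
  single_le : ∀ (i : ℕ) (t : ℝ), ‖ι (Finsupp.single i t)‖ ≤ 2 * |t|

/-- finite families of successive intervals -/
structure Fam where
  k : ℕ
  p : Fin (k + 1) → ℕ
  q : Fin (k + 1) → ℕ
  le : ∀ i, p i ≤ q i
  lt : ∀ i j, i < j → q i < p j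

/-- the vector of interval sums of `a` along the family `F` -/
noncomputable def bv (F : Fam) (a : ℕ →₀ ℝ) : ℕ →₀ ℝ :=
  ∑ i, Finsupp.single (F.p i) (isum a (F.p i) (F.q i))

/-! ### pieces -/

/-- LAM (easy) -/
def LAM : Prop := (∀ i, 1 < lam i) ∧ (∀ i, lam i < 4 / 3) ∧ (∀ i j, lam i = lam j → i = j) ∧
  (∀ p q p' q', p < q → p' < q' → lam p / lam q = lam p' / lam q' → p = p' ∧ q = q')

/-- EX: the special vector (`1` at `p`, plus `1` at `q`, `-1` at `q+1`, `-1` at `p-1` if `p ≥ 1`) -/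
def EX : Prop := ∀ p q : ℕ, p ≤ q → ∃ a : ℕ →₀ ℝ, isum a p q = 2 ∧ nn1 a ≤ 4 ∧
  ∀ i j, i ≤ j → (i, j) ≠ (p, q) → |isum a i j| ≤ 1

/-- F1: coordinates of `bv` -/
def F1 : Prop := ∀ (F : Fam) (i : ℕ), (∀ a, bv F a i = 0) ∨
  ∃ q, i ≤ q ∧ ∀ a, bv F a i = isum a i q

/-- F2: one interval; additivity; bound; truncation -/
def F2 : Prop := (∀ p q : ℕ, p ≤ q → ∃ F : Fam, ∀ a, bv F a = Finsupp.single p (isum a p q)) ∧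
  (∀ (F : Fam) (a a' : ℕ →₀ ℝ), bv F (a + a') = bv F a + bv F a') ∧
  (∀ (F : Fam) (a : ℕ →₀ ℝ), nn1 (bv F a) ≤ nn1 a)

/-- F3: extension of a family; if `a` vanishes from `n` on then some family `F'` satisfies
`bv F' (a + t e_n) = bv F a + t e_n` for all `t` (cut `F` at `n`, append `[n, n]`) -/
def F3 : Prop := ∀ (F : Fam) (a : ℕ →₀ ℝ) (n : ℕ), (∀ i, n ≤ i → a i = 0) →
  ∃ F' : Fam, ∀ t : ℝ, bv F' (a + Finsupp.single n t) = bv F a + Finsupp.single n t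

/-- F4: truncation and finiteness -/
def F4 : Prop := (∀ (F : Fam) (a : ℕ →₀ ℝ) (n : ℕ), bv F (a.filter (fun i => i < n)) = 0 ∨
    ∃ F' : Fam, bv F (a.filter (fun i => i < n)) = bv F' a) ∧
  (∀ a : ℕ →₀ ℝ, {b | ∃ F : Fam, b = bv F a}.Finite)

/-- CORE: from the spike structure to the core facts -/
def CORE : Prop := LAM → F1 → F2 → F3 → F4 →
  ∀ (X : Type) [NormedAddCommGroup X] [NormedSpace ℝ X] (x : ℕ → X) (G : (ℕ →₀ ℝ) → ℝ),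
  Spk (fun b => ‖Finsupp.linearCombination ℝ x b‖) G →
  ∀ (J : Type) [NormedAddCommGroup J] [NormedSpace ℝ J] [CompleteSpace J]
    (ι : (ℕ →₀ ℝ) →ₗ[ℝ] J), IsJamesification x J ι → Core ι

/-- REN: renorming -/
def REN : Prop := ∀ (X : Type) [NormedAddCommGroup X] [NormedSpace ℝ X] [CompleteSpace X]
  (N : X → ℝ) (m K : ℝ), 0 < m → (∀ u v, N (u + v) ≤ N u + N v) →
  (∀ (c : ℝ) v, N (c • v) = |c| * N v) → (∀ v, m * ‖v‖ ≤ N v) → (∀ v, N v ≤ K * ‖v‖) →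
  ∃ (X' : Type) (_ : NormedAddCommGroup X') (_ : NormedSpace ℝ X') (_ : CompleteSpace X')
    (Φ : X ≃L[ℝ] X'), ∀ v, ‖Φ v‖ = N v

/-- SPKX: the norm on X -/
def SPKX : Prop := LAM → ∀ (X : Type) [NormedAddCommGroup X] [NormedSpace ℝ X] [CompleteSpace X]
  (b : UnconditionalSchauderBasis ℕ ℝ X) (c K0 : ℝ), 0 < c → (∀ i, c ≤ ‖b i‖) →
  (∀ i, ‖b i‖ ≤ K0) →
  ∃ (N : X → ℝ) (m K : ℝ), 0 < m ∧ (∀ u v, N (u + v) ≤ N u + N v) ∧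
  (∀ (c : ℝ) v, N (c • v) = |c| * N v) ∧ (∀ v, m * ‖v‖ ≤ N v) ∧ (∀ v, N v ≤ K * ‖v‖) ∧
  ∃ G : (ℕ →₀ ℝ) → ℝ, Spk (fun β => N (Finsupp.linearCombination ℝ b.basis β)) G

/-- EXJ: existence of the Jamesification for a bounded sequence bounded below on coordinates -/
def EXJ : Prop := ∀ (X : Type) [NormedAddCommGroup X] [NormedSpace ℝ X] (x : ℕ → X) (K : ℝ),
  (∀ i, ‖x i‖ ≤ K) → (∀ (b : ℕ →₀ ℝ) (i : ℕ), |b i| ≤ ‖Finsupp.linearCombination ℝ x b‖) →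
  ∃ (J : Type) (_ : NormedAddCommGroup J) (_ : NormedSpace ℝ J) (_ : CompleteSpace J)
    (ι : (ℕ →₀ ℝ) →ₗ[ℝ] J), IsJamesification x J ι

/-- `f` equals the norm near some point -/
def Loc {J : Type} [NormedAddCommGroup J] [NormedSpace ℝ J] (f : StrongDual ℝ J) : Prop :=
  ∃ (y : J) (ε : ℝ), 0 < ε ∧ ∀ z, ‖z - y‖ < ε → ‖z‖ = f z

/-- S1: the interval functionals exist and are local norms -/
def S1 : Prop := LAM → EX → ∀ (J : Type) [NormedAddCommGroup J] [NormedSpace ℝ J]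
  (ι : (ℕ →₀ ℝ) →ₗ[ℝ] J), Core ι → ∀ p q, p ≤ q →
  ∃ V : StrongDual ℝ J, (∀ a, V (ι a) = lam p * isum a p q) ∧ Loc V

/-- S2A: attained on the ball -/
def S2A : Prop := ∀ (J : Type) [NormedAddCommGroup J] [NormedSpace ℝ J]
  (ι : (ℕ →₀ ℝ) →ₗ[ℝ] J), Core ι → ∀ (f : StrongDual ℝ J) (y : J) (ε : ℝ), 0 < ε →
  (∀ z, ‖z - y‖ < ε → ‖z‖ = f z) → ∀ a : ℕ →₀ ℝ, ‖ι a - y‖ < ε →
  ∃ p q, p ≤ q ∧ f (ι a) = lam p * |isum a p q|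

/-- S2C: purely linear algebra. `c` is a sequence; near `a0` the functional `c` is everywhere of the
form `± lam p * isum p q`; then every initial segment of `c` has that form -/
def S2C : Prop := LAM → ∀ (c : ℕ → ℝ) (a0 : ℕ →₀ ℝ), (∑ i ∈ a0.support, a0 i * c i ≠ 0) →
  (∀ u : ℕ →₀ ℝ, ∃ τ > (0 : ℝ), ∀ t : ℝ, 0 < t → t < τ → ∃ p q, p ≤ q ∧
    ∑ i ∈ (a0 + t • u).support, (a0 + t • u) i * c i = lam p * |isum (a0 + t • u) p q|) →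
  ∀ n, (∀ i, n < i → a0 i = 0) → ∃ (s : ℝ) (p q : ℕ), (s = 1 ∨ s = -1) ∧ p ≤ q ∧ q ≤ n ∧
    ∀ i, i ≤ n → c i = if p ≤ i ∧ i ≤ q then s * lam p else 0

/-- S2D: combinatorics of the sequence -/
def S2D : Prop := LAM → ∀ (c : ℕ → ℝ) (n0 : ℕ), (∀ n, n0 ≤ n → ∃ (s : ℝ) (p q : ℕ),
    (s = 1 ∨ s = -1) ∧ p ≤ q ∧ q ≤ n ∧
    ∀ i, i ≤ n → c i = if p ≤ i ∧ i ≤ q then s * lam p else 0) →
  ∃ (s : ℝ) (p : ℕ), (s = 1 ∨ s = -1) ∧ ((∃ q, p ≤ q ∧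
    ∀ i, c i = if p ≤ i ∧ i ≤ q then s * lam p else 0) ∨
    ∀ i, c i = if p ≤ i then s * lam p else 0)

/-- S2: local norms are interval functionals -/
def S2 : Prop := ∀ (J : Type) [NormedAddCommGroup J] [NormedSpace ℝ J]
  (ι : (ℕ →₀ ℝ) →ₗ[ℝ] J), Core ι → ∀ f : StrongDual ℝ J, Loc f →
  ∃ (s : ℝ) (p q : ℕ), (s = 1 ∨ s = -1) ∧ p ≤ q ∧ ∀ a, f (ι a) = s * (lam p * isum a p q)

/-- S2Z: S2 from the parts -/
def S2Z : Prop := LAM → S2A → S2C → S2D → S2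

/-- C1: relation between three intervals -/
def C1 : Prop := ∀ (p1 q1 p2 q2 p3 q3 : ℕ) (α β γ : ℝ), p1 ≤ q1 → p2 ≤ q2 → p3 ≤ q3 →
  α ≠ 0 → β ≠ 0 → γ ≠ 0 → (p1, q1) ≠ (p2, q2) →
  (∀ i, (if p1 ≤ i ∧ i ≤ q1 then α else 0) - (if p2 ≤ i ∧ i ≤ q2 then β else 0) =
    (if p3 ≤ i ∧ i ≤ q3 then γ else 0)) →
  |α| = |β| ∧ |β| = |γ| ∧
  (p1 = p2 → (q2 < q1 ∧ p3 = q2 + 1 ∧ q3 = q1 ∧ α = β ∧ β = γ) ∨
    (q1 < q2 ∧ p3 = q1 + 1 ∧ q3 = q2 ∧ α = β ∧ β = -γ))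

/-- C2: rigidity. `P p q, Q p q, s p q` describe the image of the interval functional `(p,q)` -/
def C2 : Prop := LAM → C1 → ∀ (P Q : ℕ → ℕ → ℕ) (s : ℕ → ℕ → ℝ),
  (∀ p q, p ≤ q → P p q ≤ Q p q) → (∀ p q, p ≤ q → s p q = 1 ∨ s p q = -1) →
  (∀ p q p' q', p ≤ q → p' ≤ q' → P p q = P p' q' → Q p q = Q p' q' → p = p' ∧ q = q') →
  (∀ p q, p ≤ q → ∀ i,
    (if P p (q + 1) ≤ i ∧ i ≤ Q p (q + 1) then s p (q + 1) * lam (P p (q + 1)) else 0) -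
    (if P p q ≤ i ∧ i ≤ Q p q then s p q * lam (P p q) else 0) =
    (if P (q + 1) (q + 1) ≤ i ∧ i ≤ Q (q + 1) (q + 1) then
      lam p / lam (q + 1) * (s (q + 1) (q + 1) * lam (P (q + 1) (q + 1))) else 0)) →
  ∃ e : ℝ, (e = 1 ∨ e = -1) ∧ ∀ p q, p ≤ q → P p q = p ∧ Q p q = q ∧ s p q = e

/-- SEP: the coordinates separate points -/
def SEP : Prop := LAM → ∀ (J : Type) [NormedAddCommGroup J] [NormedSpace ℝ J]
  (ι : (ℕ →₀ ℝ) →ₗ[ℝ] J), Core ι → ∀ V : ℕ → StrongDual ℝ J,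
  (∀ i a, V i (ι a) = lam i * isum a i i) → ∀ z : J, (∀ i, V i z = 0) → z = 0

/-- RIG: triviality for Core spaces -/
def RIG : Prop := ∀ (J : Type) [NormedAddCommGroup J] [NormedSpace ℝ J]
  (ι : (ℕ →₀ ℝ) →ₗ[ℝ] J), Core ι → ∀ T : J ≃ₗᵢ[ℝ] J,
  T = LinearIsometryEquiv.refl ℝ J ∨ T = LinearIsometryEquiv.neg ℝ

/-- RIGZ: assembly -/
def RIGZ : Prop := LAM → EX → S1 → S2 → C1 → C2 → SEP → RIG

end Pool.Agent.R233.JI
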