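import Mathlib
import Pool.Agent.R233.JI.Stm
import Pool.Agent.Results.MP_8db9c5_an.EveryFiniteGroup

set_option autoImplicit false

namespace Pool.Agent.R233.JI

open Pool.Agent.Results.MP_8db9c5_an.NontrivialIsometry
open Pool.Agent.Results.MP_8db9c5_an.EveryFiniteGroup

/-- Every surjective linear isometry of every Jamesification of `x` is `Id` or `-Id`. -/
def TrivialIsometries {X : Type} [NormedAddCommGroup X] [NormedSpace ℝ X] (x : ℕ → X) : Prop :=
  ∀ (J : Type) [NormedAddCommGroup J] [NormedSpace ℝ J] [CompleteSpace J]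
    (ι : (ℕ →₀ ℝ) →ₗ[ℝ] J), IsJamesification x J ι →
    ∀ T : J ≃ₗᵢ[ℝ] J, T = LinearIsometryEquiv.refl ℝ J ∨ T = LinearIsometryEquiv.neg ℝ

/-- Transport of an unconditional basis by an isomorphism. -/
noncomputable def transport {X X' : Type} [NormedAddCommGroup X] [NormedSpace ℝ X]
    [NormedAddCommGroup X'] [NormedSpace ℝ X']
    (b : UnconditionalSchauderBasis ℕ ℝ X) (Φ : X ≃L[ℝ] X') :
    UnconditionalSchauderBasis ℕ ℝ X' where
  basis i := Φ (b i)
  coord i := (b.coord i).comp (Φ.symm : X' →L[ℝ] X)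
  ortho i j := by
    have := b.ortho i j
    rw [← this]
    simp
  expansion x := by
    have h := (b.expansion (Φ.symm x)).mapL (Φ : X →L[ℝ] X')
    simpa using h

theorem refl_transport {X X' : Type} [NormedAddCommGroup X] [NormedSpace ℝ X]
    [NormedAddCommGroup X'] [NormedSpace ℝ X'] (Φ : X ≃L[ℝ] X')
    (h : Function.Surjective (NormedSpace.inclusionInDoubleDual ℝ X)) :
    Function.Surjective (NormedSpace.inclusionInDoubleDual ℝ X') := by
  intro Ψ
  let Ψ' : StrongDual ℝ (StrongDual ℝ X) :=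
    Ψ.comp ((ContinuousLinearMap.compL ℝ X' X ℝ).flip (Φ.symm : X' →L[ℝ] X))
  obtain ⟨x, hx⟩ := h Ψ'
  refine ⟨Φ x, ?_⟩
  ext f
  rw [NormedSpace.dual_def]
  have e : Ψ' (f.comp (Φ : X →L[ℝ] X')) = Ψ f := by
    show Ψ ((f.comp (Φ : X →L[ℝ] X')).comp (Φ.symm : X' →L[ℝ] X)) = Ψ f
    congr 1
    ext z
    simp
  rw [← e, ← hx, NormedSpace.dual_def]
  rfl

theorem final (hLAM : LAM) (hRIG : RIG) (hREN : REN) (hSPKX : SPKX) (hEXJ : EXJ)
    (hCORE : ∀ (X : Type) [NormedAddCommGroup X] [NormedSpace ℝ X] (x : ℕ → X)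
      (G : (ℕ →₀ ℝ) → ℝ), Spk (fun b => ‖Finsupp.linearCombination ℝ x b‖) G →
      ∀ (J : Type) [NormedAddCommGroup J] [NormedSpace ℝ J] [CompleteSpace J]
        (ι : (ℕ →₀ ℝ) →ₗ[ℝ] J), IsJamesification x J ι → Core ι) :
    ∀ (X : Type) [NormedAddCommGroup X] [NormedSpace ℝ X] [CompleteSpace X]
      (b : UnconditionalSchauderBasis ℕ ℝ X),
      (∃ c > 0, ∀ i, c ≤ ‖b i‖) → (∃ K, ∀ i, ‖b i‖ ≤ K) →
      ∃ (X' : Type) (_ : NormedAddCommGroup X') (_ : NormedSpace ℝ X') (_ : CompleteSpace X')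
        (Φ : X ≃L[ℝ] X') (b' : UnconditionalSchauderBasis ℕ ℝ X'),
        (∀ i, b' i = Φ (b i)) ∧
        (Function.Surjective (NormedSpace.inclusionInDoubleDual ℝ X) →
          Function.Surjective (NormedSpace.inclusionInDoubleDual ℝ X')) ∧
        HasJamesification b' ∧ TrivialIsometries b' := by
  intro X _ _ _ b hc hK
  obtain ⟨c, hc0, hc⟩ := hc
  obtain ⟨K0, hK0⟩ := hK
  obtain ⟨N, m, K, hm, hN1, hN2, hN3, hN4, G, hG⟩ := hSPKX hLAM X b c K0 hc0 hc hK0
  obtain ⟨X', i1, i2, i3, Φ, hΦ⟩ := hREN X N m K hm hN1 hN2 hN3 hN4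
  have hlc : ∀ β : ℕ →₀ ℝ, Finsupp.linearCombination ℝ (transport b Φ).basis β =
      Φ (Finsupp.linearCombination ℝ b.basis β) := by
    intro β
    rw [Finsupp.linearCombination_apply, Finsupp.linearCombination_apply, Finsupp.sum,
      Finsupp.sum, map_sum]
    refine Finset.sum_congr rfl fun i _ => ?_
    rw [map_smul]
    rfl
  have hS : Spk (fun β => ‖Finsupp.linearCombination ℝ (transport b Φ).basis β‖) G := by
    have : (fun β => ‖Finsupp.linearCombination ℝ (transport b Φ).basis β‖) =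
        fun β => N (Finsupp.linearCombination ℝ b.basis β) := by
      funext β
      rw [hlc, hΦ]
    rw [this]
    exact hG
  refine ⟨X', i1, i2, i3, Φ, transport b Φ, fun i => rfl, refl_transport Φ, ?_, ?_⟩
  · refine hEXJ X' (transport b Φ).basis (K * K0) ?_ ?_
    · intro i
      show ‖Φ (b i)‖ ≤ K * K0
      rw [hΦ]
      have hK' : 0 ≤ K := by
        by_contra hneg
        push Not at hneg
        have h1 := hN4 (b i)
        have h2 := hN3 (b i)
        have h3 : 0 < ‖b i‖ := lt_of_lt_of_le hc0 (hc i)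
        have h4 : 0 < m * ‖b i‖ := mul_pos hm h3
        have h5 : K * ‖b i‖ < 0 := mul_neg_of_neg_of_pos hneg h3
        linarith
      exact (hN4 _).trans (mul_le_mul_of_nonneg_left (hK0 i) hK')
    · intro β i
      have h1 := hS.le_lam β i
      have h2 := hLAM.1 i
      have h3 : |β i| ≤ lam i * |β i| := le_mul_of_one_le_left (abs_nonneg _) h2.le
      exact h3.trans h1
  · intro J _ _ _ ι hJ T
    exact hRIG J ι (hCORE X' (transport b Φ).basis G hS J ι hJ) T

end Pool.Agent.R233.JI
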