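import Pool.Agent.R233.JI.Stm

/-! Piece LAM of project JI. -/

set_option autoImplicit false

namespace Pool.Agent.R233.JI

namespace LAMx

theorem anti : StrictAnti (fun n : ℕ => (1 / 2 : ℝ) ^ n) :=
  pow_right_strictAnti₀ (by norm_num) (by norm_num)

theorem key {p q p' q' : ℕ} (h1 : p < q)
    (e : (1 / 2 : ℝ) ^ p - (1 / 2 : ℝ) ^ q = (1 / 2 : ℝ) ^ p' - (1 / 2 : ℝ) ^ q') : ¬ p < p' := by
  intro h
  have a1 : (1 / 2 : ℝ) ^ q ≤ (1 / 2 : ℝ) ^ (p + 1) := anti.antitone h1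
  have a2 : (1 / 2 : ℝ) ^ p' ≤ (1 / 2 : ℝ) ^ (p + 1) := anti.antitone h
  have a3 : (0 : ℝ) < (1 / 2 : ℝ) ^ q' := by positivity
  have a4 : (1 / 2 : ℝ) ^ (p + 1) = (1 / 2 : ℝ) ^ p / 2 := by rw [pow_succ]; ring
  rw [a4] at a1 a2
  linarith

end LAMx

open LAMx in
theorem tLAM : LAM := by
  refine ⟨fun i => ?_, fun i => ?_, fun i j h => ?_, fun p q p' q' h1 h2 e => ?_⟩
  · exact Real.one_lt_exp_iff.2 (by positivity)
  · have h1 : Real.exp (1 / 4) < 4 / 3 := by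
      by_contra h
      rw [not_lt] at h
      have h2 : (4 / 3 : ℝ) ^ 4 ≤ Real.exp (1 / 4) ^ 4 := pow_le_pow_left₀ (by norm_num) h 4
      rw [← Real.exp_nat_mul] at h2
      norm_num at h2
      have h3 := Real.exp_one_lt_d9
      linarith
    refine lt_of_le_of_lt (Real.exp_le_exp.2 ?_) h1
    have h2 : (1 / 2 : ℝ) ^ i ≤ 1 := pow_le_one₀ (by norm_num) (by norm_num)
    linarith
  · have h1 := Real.exp_injective h
    have h2 : (1 / 2 : ℝ) ^ i = (1 / 2 : ℝ) ^ j := by linarith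
    exact anti.injective h2
  · unfold lam at e
    rw [← Real.exp_sub, ← Real.exp_sub] at e
    have h3 := Real.exp_injective e
    have h4 : (1 / 2 : ℝ) ^ p - (1 / 2 : ℝ) ^ q = (1 / 2 : ℝ) ^ p' - (1 / 2 : ℝ) ^ q' := by
      linarith
    have h5 : p = p' := le_antisymm (not_lt.1 (key h2 h4.symm)) (not_lt.1 (key h1 h4))
    subst h5
    refine ⟨rfl, ?_⟩
    have h6 : (1 / 2 : ℝ) ^ q = (1 / 2 : ℝ) ^ q' := by linarith
    exact anti.injective h6

end Pool.Agent.R233.JI
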