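import Pool.Agent.R233.JI.Stm

set_option autoImplicit false

namespace Pool.Agent.R233.JI

/-- type synonym -/
def RX (X : Type) : Type := X

instance rxA (X : Type) [AddCommGroup X] : AddCommGroup (RX X) := inferInstanceAs (AddCommGroup X)

instance rxM (X : Type) [AddCommGroup X] [Module ℝ X] : Module ℝ (RX X) := inferInstanceAs (Module ℝ X)

/-- the identity as a linear equivalence -/
def rxE (X : Type) [AddCommGroup X] [Module ℝ X] : X ≃ₗ[ℝ] RX X := LinearEquiv.refl ℝ X

theorem tREN : REN := by
  intro X _ _ _ N m K hm hadd hsmul hlow hup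
  let hN : Norm (RX X) := ⟨fun v => N ((rxE X).symm v)⟩
  have hnorm : ∀ v : RX X, ‖v‖ = N ((rxE X).symm v) := fun v => rfl
  have core : NormedSpace.Core ℝ (RX X) :=
    { norm_nonneg := fun v => by
        rw [hnorm]
        exact le_trans (by positivity) (hlow _)
      norm_smul := fun c v => by
        rw [hnorm, hnorm, map_smul, hsmul, Real.norm_eq_abs]
      norm_triangle := fun u v => by
        rw [hnorm, hnorm, hnorm, map_add]
        exact hadd _ _
      norm_eq_zero_iff := fun v => by
        rw [hnorm]
        constructor
        · intro h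
          have h1 := hlow ((rxE X).symm v)
          rw [h] at h1
          have h2 : ‖(rxE X).symm v‖ ≤ 0 := by
            by_contra h3
            rw [not_le] at h3
            nlinarith [mul_pos hm h3]
          have h3 := norm_le_zero_iff.mp h2
          exact (LinearEquiv.map_eq_zero_iff _).mp h3
        · rintro rfl
          rw [map_zero]
          have h1 := hsmul 0 0
          rw [zero_smul, abs_zero, zero_mul] at h1
          exact h1 }
  let I1 : NormedAddCommGroup (RX X) := NormedAddCommGroup.ofCore core
  let I2 : NormedSpace ℝ (RX X) := NormedSpace.ofCore core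
  have hnorm' : ∀ v : RX X, ‖v‖ = N ((rxE X).symm v) := fun v => rfl
  let Φ : X ≃L[ℝ] RX X := (rxE X).toContinuousLinearEquivOfBounds K m⁻¹
    (fun v => by
      rw [hnorm', LinearEquiv.symm_apply_apply]
      exact hup v)
    (fun v => by
      rw [hnorm', inv_mul_eq_div, le_div_iff₀ hm, mul_comm]
      exact hlow _)
  refine ⟨RX X, I1, I2, ?_, Φ, ?_⟩
  · exact (completeSpace_congr (e := Φ.toEquiv) Φ.isUniformEmbedding).1 inferInstance
  · intro v
    rw [hnorm']
    have : (rxE X).symm (Φ v) = v := (rxE X).symm_apply_apply v
    rw [this]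

end Pool.Agent.R233.JI
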