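import Pool.Agent.R233.JI.Stm

set_option autoImplicit false

namespace Pool.Agent.R233.JI

open Pool.Agent.Results.MP_8db9c5_an.NontrivialIsometry

namespace Rigz

theorem isum_single (i p q : ℕ) :
    isum (Finsupp.single i 1) p q = if p ≤ i ∧ i ≤ q then 1 else 0 := by
  unfold isum
  simp only [Finsupp.single_apply]
  rw [Finset.sum_ite_eq]
  simp only [Finset.mem_Icc]

theorem isum_succ (a : ℕ →₀ ℝ) (p q : ℕ) (h : p ≤ q) :
    isum a p (q + 1) - isum a p q = isum a (q + 1) (q + 1) := by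
  unfold isum
  rw [Finset.sum_Icc_succ_top (by omega), Finset.Icc_self, Finset.sum_singleton]
  ring

theorem lam_pos (i : ℕ) : 0 < lam i := Real.exp_pos _

theorem fun_eq {J : Type} [NormedAddCommGroup J] [NormedSpace ℝ J] (ι : (ℕ →₀ ℝ) →ₗ[ℝ] J)
    (h : DenseRange ι) (f g : StrongDual ℝ J) (hfg : ∀ a, f (ι a) = g (ι a)) : f = g := by
  have := h.equalizer f.continuous g.continuous (funext hfg)
  ext z
  exact congrFun this z

theorem interval_inj (p q p' q' : ℕ) (σ : ℝ) (hp : p ≤ q) (hp' : p' ≤ q') (hσ : σ ≠ 0)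
    (h : ∀ i, lam p * (if p ≤ i ∧ i ≤ q then (1 : ℝ) else 0) =
      σ * (lam p' * (if p' ≤ i ∧ i ≤ q' then (1 : ℝ) else 0))) : p = p' ∧ q = q' := by
  have key : ∀ i, (p ≤ i ∧ i ≤ q) ↔ (p' ≤ i ∧ i ≤ q') := by
    intro i
    have hi := h i
    have h1 := (lam_pos p).ne'
    have h2 := (lam_pos p').ne'
    by_cases c1 : p ≤ i ∧ i ≤ q <;> by_cases c2 : p' ≤ i ∧ i ≤ q'
    · exact ⟨fun _ => c2, fun _ => c1⟩
    · rw [if_pos c1, if_neg c2] at hi
      simp only [mul_one, mul_zero] at hi
      exact absurd hi h1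
    · rw [if_neg c1, if_pos c2] at hi
      simp only [mul_one, mul_zero] at hi
      exact absurd hi.symm (mul_ne_zero hσ h2)
    · exact ⟨fun h => absurd h c1, fun h => absurd h c2⟩
  have k1 := (key p).1 ⟨le_rfl, hp⟩
  have k2 := (key q).1 ⟨hp, le_rfl⟩
  have k3 := (key p').2 ⟨le_rfl, hp'⟩
  have k4 := (key q').2 ⟨hp', le_rfl⟩
  omega

end Rigz

open Rigz in
theorem tRIGZ : RIGZ := by
  intro hLAM hEX hS1 hS2 hC1 hC2 hSEP J _ _ ι hcore T
  have hV := hS1 hLAM hEX J ι hcore
  choose! V hV1 hV2 using hV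
  -- the composed functionals
  let F : ℕ → ℕ → StrongDual ℝ J := fun p q => (V p q).comp (T : J →L[ℝ] J)
  have hF : ∀ p q z, F p q z = V p q (T z) := fun p q z => rfl
  have hFloc : ∀ p q, p ≤ q → Loc (F p q) := by
    intro p q hpq
    obtain ⟨y, ε, hε, hy⟩ := hV2 p q hpq
    refine ⟨T.symm y, ε, hε, ?_⟩
    intro z hz
    have h1 : ‖T z - y‖ < ε := by
      have h2 : T z - y = T (z - T.symm y) := by
        rw [map_sub, T.apply_symm_apply]
      rw [h2, T.norm_map]
      exact hz
    have h3 := hy (T z) h1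
    rw [T.norm_map] at h3
    rw [hF, h3]
  have hS : ∀ p q, p ≤ q → ∃ (s : ℝ) (P Q : ℕ), (s = 1 ∨ s = -1) ∧ P ≤ Q ∧
      ∀ a, F p q (ι a) = s * (lam P * isum a P Q) := fun p q hpq =>
    hS2 J ι hcore (F p q) (hFloc p q hpq)
  choose! s P Q hs hPQ hFa using hS
  have hinj : ∀ p q p' q', p ≤ q → p' ≤ q' → P p q = P p' q' → Q p q = Q p' q' →
      p = p' ∧ q = q' := by
    intro p q p' q' hp hp' hPP hQQ
    set σ : ℝ := s p q * s p' q' with hσ
    have hσ0 : σ ≠ 0 := by
      rcases hs p q hp with h | h <;> rcases hs p' q' hp' with h' | h' <;> rw [hσ, h, h'] <;>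
        norm_num
    have h1 : F p q = σ • F p' q' := by
      apply fun_eq ι hcore.dense
      intro a
      rw [ContinuousLinearMap.smul_apply, hFa p q hp, hFa p' q' hp', hPP, hQQ, hσ, smul_eq_mul]
      rcases hs p' q' hp' with h' | h' <;> rw [h'] <;> ring
    have h2 : ∀ z, V p q z = σ * V p' q' z := by
      intro z
      have h3 : F p q (T.symm z) = (σ • F p' q') (T.symm z) := by rw [h1]
      rw [ContinuousLinearMap.smul_apply, hF, hF, T.apply_symm_apply, smul_eq_mul] at h3
      exact h3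
    apply interval_inj p q p' q' σ hp hp' hσ0
    intro i
    have h4 := h2 (ι (Finsupp.single i 1))
    rw [hV1 p q hp, hV1 p' q' hp', isum_single, isum_single] at h4
    exact h4
  have hrel : ∀ p q, p ≤ q → ∀ i,
      (if P p (q + 1) ≤ i ∧ i ≤ Q p (q + 1) then s p (q + 1) * lam (P p (q + 1)) else 0) -
      (if P p q ≤ i ∧ i ≤ Q p q then s p q * lam (P p q) else 0) =
      (if P (q + 1) (q + 1) ≤ i ∧ i ≤ Q (q + 1) (q + 1) then
        lam p / lam (q + 1) * (s (q + 1) (q + 1) * lam (P (q + 1) (q + 1))) else 0) := by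
    intro p q hpq i
    have hl := (lam_pos (q + 1)).ne'
    have h1 : V p (q + 1) - V p q = (lam p / lam (q + 1)) • V (q + 1) (q + 1) := by
      apply fun_eq ι hcore.dense
      intro a
      rw [ContinuousLinearMap.sub_apply, ContinuousLinearMap.smul_apply, hV1 p (q + 1) (by omega),
        hV1 p q hpq, hV1 (q + 1) (q + 1) le_rfl, ← mul_sub, isum_succ a p q hpq, smul_eq_mul]
      field_simp
    have h2 : F p (q + 1) (ι (Finsupp.single i 1)) - F p q (ι (Finsupp.single i 1)) =
        lam p / lam (q + 1) * F (q + 1) (q + 1) (ι (Finsupp.single i 1)) := by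
      rw [hF, hF, hF, ← ContinuousLinearMap.sub_apply, h1, ContinuousLinearMap.smul_apply,
        smul_eq_mul]
    rw [hFa p (q + 1) (by omega), hFa p q hpq, hFa (q + 1) (q + 1) le_rfl, isum_single,
      isum_single, isum_single] at h2
    have e1 : ∀ (c : Prop) [Decidable c] (x : ℝ), (if c then x else 0) =
        x * (if c then (1 : ℝ) else 0) := by
      intro c _ x
      by_cases hc : c <;> simp [hc]
    rw [e1 _ (s p (q + 1) * lam (P p (q + 1))), e1 _ (s p q * lam (P p q)),
      e1 _ (lam p / lam (q + 1) * (s (q + 1) (q + 1) * lam (P (q + 1) (q + 1))))]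
    linear_combination h2
  obtain ⟨e, he, hall⟩ := hC2 hLAM hC1 P Q s hPQ hs hinj hrel
  have hTz : ∀ z, T z = e • z := by
    intro z
    have h1 := hSEP hLAM J ι hcore (fun i => V i i) (fun i a => hV1 i i le_rfl a) (T z - e • z) ?_
    · exact sub_eq_zero.1 h1
    · intro i
      have h2 : F i i = e • V i i := by
        apply fun_eq ι hcore.dense
        intro a
        obtain ⟨a1, a2, a3⟩ := hall i i le_rfl
        rw [hFa i i le_rfl, a1, a2, a3, ContinuousLinearMap.smul_apply, hV1 i i le_rfl,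
          smul_eq_mul]
      have h3 : V i i (T z) = e * V i i z := by
        rw [← hF, h2, ContinuousLinearMap.smul_apply, smul_eq_mul]
      show V i i (T z - e • z) = 0
      rw [map_sub, map_smul, h3, smul_eq_mul, sub_self]
  rcases he with he | he
  · left
    ext z
    rw [hTz z, he, one_smul]
    rfl
  · right
    ext z
    rw [hTz z, he, neg_one_smul]
    rfl

end Pool.Agent.R233.JI
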