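import Pool.Agent.R233.JI.Stm

set_option autoImplicit false

namespace Pool.Agent.R233.JI

namespace S1aux

theorem isum_add' (a b : ℕ →₀ ℝ) (p q : ℕ) : isum (a + b) p q = isum a p q + isum b p q := by
  unfold isum
  rw [← Finset.sum_add_distrib]
  exact Finset.sum_congr rfl fun j _ => by simp

/-- the interval functional on finitely supported sequences -/
noncomputable def L (p q : ℕ) : (ℕ →₀ ℝ) →ₗ[ℝ] ℝ where
  toFun a := lam p * isum a p q
  map_add' a b := by rw [isum_add']; ring
  map_smul' c a := by
    unfold isum
    simp only [Finsupp.smul_apply, smul_eq_mul, RingHom.id_apply]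
    rw [← Finset.mul_sum]
    ring

end S1aux

theorem tS1 : S1 := by
  intro hlam hex J _ _ ι hc p q hpq
  obtain ⟨hl1, hl2, -, -⟩ := hlam
  have hdense := hc.dense
  have hnorm : ∀ a : ℕ →₀ ℝ, ‖S1aux.L p q a‖ ≤ 1 * ‖ι a‖ := by
    intro a
    have h := hc.lower a p q hpq
    have h2 : ‖S1aux.L p q a‖ = lam p * |isum a p q| := by
      change ‖lam p * isum a p q‖ = _
      rw [Real.norm_eq_abs, abs_mul, abs_of_pos (by linarith [hl1 p])]
    rw [h2, one_mul]
    exact h
  refine ⟨(S1aux.L p q).extendOfNorm ι, ?_, ?_⟩
  · intro a
    exact LinearMap.extendOfNorm_eq hdense ⟨1, hnorm⟩ a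
  · set V : StrongDual ℝ J := (S1aux.L p q).extendOfNorm ι with hV
    have hVa : ∀ a, V (ι a) = lam p * isum a p q := fun a =>
      LinearMap.extendOfNorm_eq hdense ⟨1, hnorm⟩ a
    obtain ⟨a0, h1, h2, h3⟩ := hex p q hpq
    refine ⟨ι a0, 1 / 8, by norm_num, ?_⟩
    have key : ∀ a : ℕ →₀ ℝ, ‖ι a - ι a0‖ < 1 / 8 → ‖ι a‖ = V (ι a) := by
      intro a ha
      rw [← map_sub] at ha
      have hsum : ∀ i j, isum a i j = isum a0 i j + isum (a - a0) i j := by
        intro i j
        rw [← S1aux.isum_add']
        congr 1
        abel
      have hsmall : ∀ i j, i ≤ j → lam i * |isum (a - a0) i j| < 1 / 8 := fun i j hij =>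
        lt_of_le_of_lt (hc.lower (a - a0) i j hij) ha
      rw [hVa]
      have hp := hl1 p
      have hp2 := hsmall p q hpq
      have hs := hsum p q
      have hlow : 15 / 8 ≤ lam p * isum a p q := by
        rw [hs, h1]
        have h4 : -(lam p * |isum (a - a0) p q|) ≤ lam p * isum (a - a0) p q := by
          have := mul_le_mul_of_nonneg_left (neg_abs_le (isum (a - a0) p q))
            (by linarith : (0 : ℝ) ≤ lam p)
          linarith
        nlinarith
      have hpos : 0 < isum a p q := by
        by_contra hcon
        push Not at hcon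
        have : lam p * isum a p q ≤ 0 :=
          mul_nonpos_of_nonneg_of_nonpos (by linarith) hcon
        linarith
      apply le_antisymm
      · apply hc.upper a a0 (lam p * isum a p q)
        · intro i j hij
          by_cases hE : (i, j) = (p, q)
          · rw [Prod.mk.injEq] at hE
            obtain ⟨rfl, rfl⟩ := hE
            rw [abs_of_pos hpos]
          · have h5 := h3 i j hij hE
            have h6 := hsmall i j hij
            have hi1 := hl1 i
            have hi2 := hl2 i
            have h7 : |isum a i j| ≤ 1 + |isum (a - a0) i j| := by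
              rw [hsum i j]
              exact (abs_add_le _ _).trans (by linarith)
            have h8 : lam i * |isum a i j| ≤ lam i * (1 + |isum (a - a0) i j|) :=
              mul_le_mul_of_nonneg_left h7 (by linarith)
            linarith
        · have h9 : ‖ι (a - a0)‖ < 1 / 8 := ha
          linarith
      · have := hc.lower a p q hpq
        rw [abs_of_pos hpos] at this
        exact this
    intro z hz
    have hopen : IsOpen {z : J | ‖z - ι a0‖ < 1 / 8} :=
      isOpen_lt (by fun_prop) continuous_const
    have hclosed : IsClosed {z : J | ‖z‖ = V z} :=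
      isClosed_eq continuous_norm V.continuous
    have hz' : z ∈ closure ({z : J | ‖z - ι a0‖ < 1 / 8} ∩ Set.range ι) :=
      hdense.open_subset_closure_inter hopen hz
    refine closure_minimal ?_ hclosed hz'
    rintro w ⟨hw1, a, rfl⟩
    exact key a hw1

end Pool.Agent.R233.JI
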