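import Pool.Agent.R233.JI.Stm

set_option autoImplicit false

namespace Pool.Agent.R233.JI

theorem tS2A : S2A := by
  intro J _ _ ι hC f y ε hε hz a ha
  have hfa : ‖ι a‖ = f (ι a) := hz _ ha
  rcases hC.att a with ⟨p, q, hpq, h⟩ | ⟨n0, h⟩
  · exact ⟨p, q, hpq, by rw [← hfa, h]⟩
  · exfalso
    set δ : ℝ := ε - ‖ι a - y‖ with hδ
    have hδ0 : 0 < δ := by rw [hδ]; linarith
    have ht : (δ / 4) ≠ 0 := by positivity
    have ht' : -(δ / 4) ≠ 0 := neg_ne_zero.2 ht
    have key : ∀ t : ℝ, t ≠ 0 → |t| ≤ δ / 4 → f (ι a) < f (ι a) + f (ι (Finsupp.single n0 t)) := by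
      intro t ht0 htd
      have h1 := h n0 le_rfl t ht0
      have h2 := hC.single_le n0 t
      have h3 : ‖ι (a + Finsupp.single n0 t) - y‖ < ε := by
        have e : ι (a + Finsupp.single n0 t) - y = (ι a - y) + ι (Finsupp.single n0 t) := by
          rw [map_add]; abel
        rw [e]
        have h4 := norm_add_le (ι a - y) (ι (Finsupp.single n0 t))
        linarith
      have h5 := hz _ h3
      rw [h5, hfa, map_add, map_add] at h1
      exact h1
    have k1 := key (δ / 4) ht (by rw [abs_of_pos (by positivity)])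
    have k2 := key (-(δ / 4)) ht' (by rw [abs_neg, abs_of_pos (by positivity)])
    have e : ι (Finsupp.single n0 (-(δ / 4))) = -ι (Finsupp.single n0 (δ / 4)) := by
      rw [Finsupp.single_neg, map_neg]
    rw [e, map_neg] at k2
    linarith

end Pool.Agent.R233.JI
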