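import Mathlib
import Pool.Agent.R233.JI.Stm

set_option autoImplicit false

namespace Pool.Agent.R233.JI

namespace S2CAux

/-- the three signs -/
def sgn (j : Fin 3) : ℝ := if j = 0 then 1 else if j = 1 then -1 else 0

/-- interval sum as a linear map -/
noncomputable def IS (p q : ℕ) : (ℕ →₀ ℝ) →ₗ[ℝ] ℝ := ∑ j ∈ Finset.Icc p q, Finsupp.lapply j

lemma IS_apply (p q : ℕ) (a : ℕ →₀ ℝ) : IS p q a = isum a p q := by
  simp [IS, isum, LinearMap.sum_apply]

/-- the finitely many functionals -/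
noncomputable def V (n : ℕ) (w : Fin 3 × Fin (n + 1) × Fin (n + 1)) : (ℕ →₀ ℝ) →ₗ[ℝ] ℝ :=
  (sgn w.1 * lam w.2.1) • IS w.2.1 w.2.2

lemma V_apply (n : ℕ) (w : Fin 3 × Fin (n + 1) × Fin (n + 1)) (a : ℕ →₀ ℝ) :
    V n w a = sgn w.1 * lam w.2.1 * isum a w.2.1 w.2.2 := by
  simp [V, IS_apply]

lemma isum_cut (a : ℕ →₀ ℝ) (n : ℕ) (ha : ∀ i, n < i → a i = 0) (p q : ℕ) :
    isum a p q = isum a p (min q n) := by
  unfold isum
  symm
  apply Finset.sum_subset
  · intro i hi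
    simp only [Finset.mem_Icc] at hi ⊢
    omega
  · intro i hi hi2
    simp only [Finset.mem_Icc] at hi hi2
    apply ha
    omega

lemma isum_zero (a : ℕ →₀ ℝ) (n : ℕ) (ha : ∀ i, n < i → a i = 0) (p q : ℕ) (hp : n < p) :
    isum a p q = 0 := by
  unfold isum
  apply Finset.sum_eq_zero
  intro i hi
  simp only [Finset.mem_Icc] at hi
  apply ha
  omega

lemma repr (a : ℕ →₀ ℝ) (n : ℕ) (ha : ∀ i, n < i → a i = 0) (p q : ℕ) :
    ∃ w : Fin 3 × Fin (n + 1) × Fin (n + 1), lam p * |isum a p q| = V n w a := by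
  by_cases hp : p ≤ n
  · have hq : min q n < n + 1 := by omega
    rcases abs_choice (isum a p q) with h | h
    · refine ⟨(0, ⟨p, by omega⟩, ⟨min q n, hq⟩), ?_⟩
      rw [V_apply, h]
      simp only [sgn]
      rw [← isum_cut a n ha p q]
      simp
    · refine ⟨(1, ⟨p, by omega⟩, ⟨min q n, hq⟩), ?_⟩
      rw [V_apply, h]
      simp only [sgn]
      rw [← isum_cut a n ha p q]
      simp
  · refine ⟨(2, 0, 0), ?_⟩
    rw [V_apply, isum_zero a n ha p q (by omega)]
    simp [sgn]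

/-- the curve -/
noncomputable def ux (n : ℕ) (x : ℕ) : ℕ →₀ ℝ :=
  ∑ i ∈ Finset.range (n + 1), ((x : ℝ) ^ i) • Finsupp.single i (1 : ℝ)

lemma ux_zero (n x i : ℕ) (hi : n < i) : ux n x i = 0 := by
  unfold ux
  rw [Finsupp.finsetSum_apply]
  apply Finset.sum_eq_zero
  intro j hj
  simp only [Finset.mem_range] at hj
  rw [Finsupp.smul_apply, Finsupp.single_apply, if_neg (by omega), smul_zero]

lemma map_ux (n x : ℕ) (D : (ℕ →₀ ℝ) →ₗ[ℝ] ℝ) :
    D (ux n x) = ∑ i ∈ Finset.range (n + 1), (x : ℝ) ^ i * D (Finsupp.single i 1) := by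
  unfold ux
  rw [map_sum]
  apply Finset.sum_congr rfl
  intro i _
  rw [map_smul, smul_eq_mul]

lemma zero_of_infinite (n : ℕ) (D : (ℕ →₀ ℝ) →ₗ[ℝ] ℝ) (S : Set ℕ) (hS : S.Infinite)
    (h : ∀ x ∈ S, D (ux n x) = 0) : ∀ i, i ≤ n → D (Finsupp.single i 1) = 0 := by
  classical
  set P : Polynomial ℝ := ∑ i ∈ Finset.range (n + 1),
    Polynomial.C (D (Finsupp.single i 1)) * Polynomial.X ^ i with hP
  have hroot : ∀ x ∈ S, P.IsRoot (x : ℝ) := by
    intro x hx
    have := h x hx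
    rw [map_ux] at this
    rw [Polynomial.IsRoot.def, hP, Polynomial.eval_finsetSum, ← this]
    apply Finset.sum_congr rfl
    intro i _
    rw [Polynomial.eval_mul, Polynomial.eval_C, Polynomial.eval_pow, Polynomial.eval_X, mul_comm]
  have hinf : Set.Infinite {x : ℝ | P.IsRoot x} := by
    have h1 : Set.Infinite ((fun x : ℕ => (x : ℝ)) '' S) :=
      hS.image (fun a _ b _ hab => Nat.cast_injective hab)
    apply h1.mono
    rintro _ ⟨x, hx, rfl⟩
    exact hroot x hx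
  have hP0 : P = 0 := Polynomial.eq_zero_of_infinite_isRoot P hinf
  intro i hi
  have hc : P.coeff i = D (Finsupp.single i 1) := by
    rw [hP, Polynomial.finsetSum_coeff]
    rw [Finset.sum_eq_single i]
    · simp
    · intro j _ hj
      rw [Polynomial.coeff_C_mul, Polynomial.coeff_X_pow, if_neg (Ne.symm hj), mul_zero]
    · intro hn
      exact absurd (Finset.mem_range.mpr (by omega)) hn
  rw [← hc, hP0, Polynomial.coeff_zero]

lemma step (c : ℕ → ℝ) (a0 : ℕ →₀ ℝ) (n : ℕ) (ha0 : ∀ i, n < i → a0 i = 0) (u : ℕ →₀ ℝ)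
    (hu : ∀ i, n < i → u i = 0)
    (h : ∃ τ > (0 : ℝ), ∀ t : ℝ, 0 < t → t < τ → ∃ p q, p ≤ q ∧
      Finsupp.linearCombination ℝ c (a0 + t • u) = lam p * |isum (a0 + t • u) p q|) :
    ∃ w, (Finsupp.linearCombination ℝ c - V n w) a0 = 0 ∧
      (Finsupp.linearCombination ℝ c - V n w) u = 0 := by
  obtain ⟨τ, hτ, h⟩ := h
  have h1 : ∀ k : ℕ, ∃ w, (Finsupp.linearCombination ℝ c - V n w)
      (a0 + (τ / ((k : ℝ) + 2)) • u) = 0 := by
    intro k
    have hk : (0 : ℝ) < (k : ℝ) + 2 := by positivity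
    obtain ⟨p, q, -, hpq⟩ := h (τ / ((k : ℝ) + 2)) (by positivity)
      (by rw [div_lt_iff₀ hk]; nlinarith [(Nat.cast_nonneg k : (0 : ℝ) ≤ k)])
    obtain ⟨w, hw⟩ := repr (a0 + (τ / ((k : ℝ) + 2)) • u) n
      (by intro i hi; simp [ha0 i hi, hu i hi]) p q
    refine ⟨w, ?_⟩
    rw [LinearMap.sub_apply, hpq, hw, sub_self]
  choose w hw using h1
  obtain ⟨k1, k2, hne, heq⟩ := Finite.exists_ne_map_eq_of_infinite w
  refine ⟨w k1, ?_⟩
  have e1 := hw k1
  have e2 := hw k2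
  rw [← heq] at e2
  generalize (Finsupp.linearCombination ℝ c - V n (w k1)) = D at e1 e2 ⊢
  rw [map_add, map_smul, smul_eq_mul] at e1 e2
  have hk1 : (0 : ℝ) < (k1 : ℝ) + 2 := by positivity
  have hk2 : (0 : ℝ) < (k2 : ℝ) + 2 := by positivity
  have hne' : (k1 : ℝ) + 2 ≠ (k2 : ℝ) + 2 := by
    intro hh
    apply hne
    have : (k1 : ℝ) = k2 := by linarith
    exact_mod_cast this
  have hd : τ / ((k1 : ℝ) + 2) - τ / ((k2 : ℝ) + 2) ≠ 0 := by
    intro hh
    apply hne'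
    have : τ / ((k1 : ℝ) + 2) = τ / ((k2 : ℝ) + 2) := by linarith
    rw [div_eq_div_iff hk1.ne' hk2.ne'] at this
    exact (mul_left_cancel₀ hτ.ne' this).symm
  have hDu : D u = 0 := by
    have : (τ / ((k1 : ℝ) + 2) - τ / ((k2 : ℝ) + 2)) * D u = 0 := by linarith
    exact (mul_eq_zero.mp this).resolve_left hd
  rw [hDu, mul_zero, add_zero] at e1
  exact ⟨e1, hDu⟩

end S2CAux

open S2CAux in
theorem tS2C : S2C := by
  intro _ c a0 hne h n hn
  have hL : ∀ a : ℕ →₀ ℝ, ∑ i ∈ a.support, a i * c i = Finsupp.linearCombination ℝ c a := by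
    intro a
    simp [Finsupp.linearCombination_apply, Finsupp.sum]
  rw [hL] at hne
  have h1 : ∀ x : ℕ, ∃ w, (Finsupp.linearCombination ℝ c - V n w) a0 = 0 ∧
      (Finsupp.linearCombination ℝ c - V n w) (ux n x) = 0 := by
    intro x
    apply step c a0 n hn (ux n x) (ux_zero n x)
    obtain ⟨τ, hτ, h2⟩ := h (ux n x)
    refine ⟨τ, hτ, fun t ht ht2 => ?_⟩
    obtain ⟨p, q, hpq, h3⟩ := h2 t ht ht2
    exact ⟨p, q, hpq, by rw [← hL]; exact h3⟩
  choose W hW using h1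
  obtain ⟨w, hw⟩ := Finite.exists_infinite_fiber W
  have hS : (W ⁻¹' {w}).Infinite := Set.infinite_coe_iff.mp hw
  have hz := zero_of_infinite n (Finsupp.linearCombination ℝ c - V n w) (W ⁻¹' {w}) hS (by
    intro x hx
    have hx' : W x = w := hx
    rw [← hx']
    exact (hW x).2)
  obtain ⟨x0, hx0⟩ := hS.nonempty
  have hx0' : W x0 = w := hx0
  have ha : (Finsupp.linearCombination ℝ c - V n w) a0 = 0 := by
    rw [← hx0']; exact (hW x0).1
  rw [LinearMap.sub_apply, sub_eq_zero] at ha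
  rw [ha, V_apply] at hne
  have hs : sgn w.1 ≠ 0 := fun h0 => hne (by rw [h0]; simp)
  have hi : isum a0 w.2.1 w.2.2 ≠ 0 := fun h0 => hne (by rw [h0]; simp)
  have hpq : (w.2.1 : ℕ) ≤ w.2.2 := by
    by_contra hlt
    apply hi
    unfold isum
    rw [Finset.Icc_eq_empty (by omega), Finset.sum_empty]
  refine ⟨sgn w.1, w.2.1, w.2.2, ?_, hpq, ?_, ?_⟩
  · unfold sgn at hs ⊢
    split_ifs at hs ⊢ <;> simp_all
  · have := w.2.2.2
    omega
  · intro i hin
    have h4 := hz i hin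
    rw [LinearMap.sub_apply, sub_eq_zero, V_apply] at h4
    have h5 : Finsupp.linearCombination ℝ c (Finsupp.single i (1 : ℝ)) = c i := by
      simp [Finsupp.linearCombination_single]
    rw [h5] at h4
    rw [h4]
    unfold isum
    split_ifs with hc
    · rw [Finset.sum_eq_single i]
      · simp
      · intro j _ hj
        rw [Finsupp.single_apply, if_neg (Ne.symm hj)]
      · intro hn2
        exact absurd (Finset.mem_Icc.mpr hc) hn2
    · rw [Finset.sum_eq_zero]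
      · simp
      · intro j hj
        rw [Finset.mem_Icc] at hj
        rw [Finsupp.single_apply, if_neg]
        rintro rfl
        exact hc hj

end Pool.Agent.R233.JI
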