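import Pool.Agent.R233.JI.Stm

/-!
# Project JI, piece S2D (helper657 for helper233): combinatorics of a sequence
-/

set_option autoImplicit false

namespace Pool.Agent.R233.JI

theorem tS2D : S2D := by
  intro hLAM c n0 hc
  have hlam : ∀ i, lam i ≠ 0 := fun i => by
    have := hLAM.1 i
    linarith
  have hs0 : ∀ s : ℝ, (s = 1 ∨ s = -1) → s ≠ 0 := by
    rintro s (rfl | rfl) <;> norm_num
  obtain ⟨s, p, q0, hs, hpq, hqn, h0⟩ := hc n0 le_rfl
  have hcp : c p = s * lam p := by
    rw [h0 p (by omega), if_pos ⟨le_rfl, hpq⟩]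
  have hcp0 : c p ≠ 0 := by
    rw [hcp]
    exact mul_ne_zero (hs0 s hs) (hlam p)
  have hlow : ∀ i, i < p → c i = 0 := by
    intro i hi
    rw [h0 i (by omega), if_neg (by omega)]
  have key : ∀ n, n0 ≤ n → ∃ q, p ≤ q ∧ ∀ i, i ≤ n → c i = if p ≤ i ∧ i ≤ q then s * lam p else 0 := by
    intro n hn
    obtain ⟨s', p', q', hs', hpq', hqn', h'⟩ := hc n hn
    have hcp' : c p' = s' * lam p' := by
      rw [h' p' (by omega), if_pos ⟨le_rfl, hpq'⟩]
    have hcp0' : c p' ≠ 0 := by
      rw [hcp']
      exact mul_ne_zero (hs0 s' hs') (hlam p')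
    have hpp : p' = p := by
      rcases lt_trichotomy p' p with h | h | h
      · exact absurd (hlow p' h) hcp0'
      · exact h
      · have := h' p (by omega)
        rw [if_neg (by omega)] at this
        exact absurd this hcp0
    subst hpp
    have hss : s' = s := by
      rw [hcp] at hcp'
      exact (mul_right_cancel₀ (hlam p') hcp').symm
    subst hss
    exact ⟨q', hpq', h'⟩
  refine ⟨s, p, hs, ?_⟩
  by_cases hz : ∃ i, p ≤ i ∧ c i = 0
  · left
    classical
    have hj := Nat.find_spec hz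
    have hmin : ∀ i, i < Nat.find hz → ¬ (p ≤ i ∧ c i = 0) := fun i hi => Nat.find_min hz hi
    generalize Nat.find hz = j at hj hmin
    have hjp : p < j := by
      rcases eq_or_lt_of_le hj.1 with h | h
      · rw [h] at hcp0
        exact absurd hj.2 hcp0
      · exact h
    refine ⟨j - 1, by omega, fun i => ?_⟩
    obtain ⟨q', hq', h'⟩ := key (max (max i j) n0) (le_max_right _ _)
    have hi := h' i ((le_max_left i j).trans (le_max_left _ _))
    have hjj := h' j ((le_max_right i j).trans (le_max_left _ _))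
    have hqj : q' < j := by
      by_contra h
      rw [if_pos ⟨hj.1, by omega⟩] at hjj
      rw [hjj] at hj
      exact mul_ne_zero (hs0 s hs) (hlam p) hj.2
    by_cases h1 : p ≤ i ∧ i ≤ j - 1
    · rw [if_pos h1]
      have h2 : c i ≠ 0 := fun h => hmin i (by omega) ⟨h1.1, h⟩
      rw [hi] at h2 ⊢
      by_cases h3 : p ≤ i ∧ i ≤ q'
      · rw [if_pos h3]
      · rw [if_neg h3] at h2
        exact absurd rfl h2
    · rw [if_neg h1, hi, if_neg]
      rintro ⟨h4, h5⟩
      exact h1 ⟨h4, by omega⟩
  · right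
    intro i
    obtain ⟨q', hq', h'⟩ := key (max i n0) (le_max_right _ _)
    have hi := h' i (le_max_left _ _)
    by_cases h1 : p ≤ i
    · rw [if_pos h1]
      have h2 : c i ≠ 0 := fun h => hz ⟨i, h1, h⟩
      rw [hi] at h2 ⊢
      by_cases h3 : p ≤ i ∧ i ≤ q'
      · rw [if_pos h3]
      · rw [if_neg h3] at h2
        exact absurd rfl h2
    · rw [if_neg h1]
      exact hlow i (by omega)

end Pool.Agent.R233.JI
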