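import Pool.Agent.R233.JI.Stm

set_option autoImplicit false

namespace Pool.Agent.R233.JI

namespace S2Zaux

variable {J : Type} [NormedAddCommGroup J] [NormedSpace ℝ J] (ι : (ℕ →₀ ℝ) →ₗ[ℝ] J)

theorem eval_eq (f : StrongDual ℝ J) (a : ℕ →₀ ℝ) :
    f (ι a) = ∑ i ∈ a.support, a i * f (ι (Finsupp.single i 1)) := by
  conv_lhs => rw [← Finsupp.sum_single a]
  rw [map_finsuppSum, map_finsuppSum, Finsupp.sum]
  refine Finset.sum_congr rfl fun i _ => ?_
  have h : Finsupp.single i (a i) = a i • Finsupp.single i (1 : ℝ) := by simp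
  rw [h, map_smul, map_smul, smul_eq_mul]

theorem eval_Icc (f : StrongDual ℝ J) (a : ℕ →₀ ℝ) (p q : ℕ) (κ : ℝ)
    (h1 : ∀ i, p ≤ i → i ≤ q → f (ι (Finsupp.single i 1)) = κ)
    (h2 : ∀ i, ¬ (p ≤ i ∧ i ≤ q) → a i * f (ι (Finsupp.single i 1)) = 0) :
    f (ι a) = κ * isum a p q := by
  rw [eval_eq ι f a]
  have e1 : ∑ i ∈ a.support, a i * f (ι (Finsupp.single i 1)) =
      ∑ i ∈ a.support ∪ Finset.Icc p q, a i * f (ι (Finsupp.single i 1)) := by
    apply Finset.sum_subset Finset.subset_union_left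
    intro i _ hi
    rw [Finsupp.notMem_support_iff.mp hi, zero_mul]
  have e2 : ∑ i ∈ Finset.Icc p q, a i * f (ι (Finsupp.single i 1)) =
      ∑ i ∈ a.support ∪ Finset.Icc p q, a i * f (ι (Finsupp.single i 1)) := by
    apply Finset.sum_subset Finset.subset_union_right
    intro i _ hi
    exact h2 i (fun h => hi (Finset.mem_Icc.mpr h))
  rw [e1, ← e2, isum, Finset.mul_sum]
  refine Finset.sum_congr rfl fun i hi => ?_
  rw [Finset.mem_Icc] at hi
  rw [h1 i hi.1 hi.2, mul_comm]

end S2Zaux

open S2Zaux in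
theorem tS2Z : S2Z := by
  intro hlam hA hC hD J _ _ ι hcore f hloc
  obtain ⟨y, ε, hε, hy⟩ := hloc
  have hl0 : ∀ i, 0 < lam i := fun i => zero_lt_one.trans (hlam.1 i)
  -- a nonzero point of the range in the ball
  have hex : ∃ a0 : ℕ →₀ ℝ, ‖ι a0 - y‖ < ε ∧ 0 < ‖ι a0‖ := by
    obtain ⟨a, ha⟩ := hcore.dense.exists_dist_lt y hε
    have ha' : ‖ι a - y‖ < ε := by
      rw [← dist_eq_norm, dist_comm]
      exact ha
    by_cases h0 : 0 < ‖ι a‖
    · exact ⟨a, ha', h0⟩
    · have h1 : ι a = 0 := by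
        rw [← norm_le_zero_iff]
        exact not_lt.mp h0
      have h2 : 0 < ‖ι (Finsupp.single 0 1)‖ := by
        have h3 := hcore.lower (Finsupp.single 0 1) 0 0 le_rfl
        have h4 : isum (Finsupp.single 0 1) 0 0 = 1 := by simp [isum]
        rw [h4, abs_one, mul_one] at h3
        exact (hl0 0).trans_le h3
      set g := (ε - ‖ι a - y‖) / (2 * ‖ι (Finsupp.single 0 1)‖) with hg
      have hg0 : 0 < g := div_pos (by linarith) (by linarith)
      refine ⟨g • Finsupp.single 0 1, ?_, ?_⟩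
      · rw [map_smul]
        have h5 : ‖g • ι (Finsupp.single 0 1)‖ = (ε - ‖ι a - y‖) / 2 := by
          rw [norm_smul, Real.norm_of_nonneg hg0.le, hg]
          field_simp
        rw [h1, zero_sub, norm_neg] at h5 ha'
        calc ‖g • ι (Finsupp.single 0 1) - y‖ ≤ ‖g • ι (Finsupp.single 0 1)‖ + ‖y‖ :=
              norm_sub_le _ _
          _ = (ε - ‖y‖) / 2 + ‖y‖ := by rw [h5]
          _ < ε := by linarith
      · rw [map_smul, norm_smul, Real.norm_of_nonneg hg0.le]
        exact mul_pos hg0 h2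
  obtain ⟨a0, ha0, hn0⟩ := hex
  have hf0 : f (ι a0) = ‖ι a0‖ := (hy _ ha0).symm
  set c : ℕ → ℝ := fun i => f (ι (Finsupp.single i 1)) with hc
  -- perturbations stay in the ball
  have hball : ∀ u : ℕ →₀ ℝ, ∃ τ > (0 : ℝ), ∀ t : ℝ, |t| < τ → ‖ι (a0 + t • u) - y‖ < ε := by
    intro u
    refine ⟨(ε - ‖ι a0 - y‖) / (‖ι u‖ + 1), div_pos (by linarith) (by positivity), ?_⟩
    intro t ht
    rw [lt_div_iff₀ (by positivity)] at ht
    have h1 : ι (a0 + t • u) - y = (ι a0 - y) + t • ι u := by
      rw [map_add, map_smul]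
      abel
    rw [h1]
    have h2 : |t| * ‖ι u‖ ≤ |t| * (‖ι u‖ + 1) :=
      mul_le_mul_of_nonneg_left (by linarith) (abs_nonneg t)
    calc ‖(ι a0 - y) + t • ι u‖ ≤ ‖ι a0 - y‖ + ‖t • ι u‖ := norm_add_le _ _
      _ = ‖ι a0 - y‖ + |t| * ‖ι u‖ := by rw [norm_smul, Real.norm_eq_abs]
      _ < ε := by linarith
  have hCc := hC hlam c a0 (by
    rw [← eval_eq ι f a0, hf0]
    exact hn0.ne') (by
    intro u
    obtain ⟨τ, hτ, hτ2⟩ := hball u
    refine ⟨τ, hτ, fun t ht0 ht => ?_⟩
    obtain ⟨p, q, hpq, hval⟩ := hA J ι hcore f y ε hε hy (a0 + t • u)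
      (hτ2 t (by rwa [abs_of_pos ht0]))
    refine ⟨p, q, hpq, ?_⟩
    rw [← hval, eval_eq ι f (a0 + t • u)])
  -- a bound of the support
  obtain ⟨n0, hn⟩ : ∃ n0 : ℕ, ∀ i, n0 < i → a0 i = 0 := by
    refine ⟨a0.support.sup id, fun i hi => ?_⟩
    by_contra hne
    have : i ≤ a0.support.sup id :=
      Finset.le_sup (f := id) (Finsupp.mem_support_iff.mpr hne)
    omega
  obtain ⟨s, p, hs, hfin | hinf⟩ := hD hlam c n0 (fun n hn' =>
    hCc n (fun i hi => hn i (by omega)))
  · obtain ⟨q, hpq, hq⟩ := hfin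
    refine ⟨s, p, q, hs, hpq, fun a => ?_⟩
    rw [eval_Icc ι f a p q (s * lam p) (fun i h1 h2 => by
      have := hq i
      rw [if_pos ⟨h1, h2⟩] at this
      exact this) (fun i hi => by
      have := hq i
      rw [if_neg hi] at this
      change a i * c i = 0
      rw [this, mul_zero])]
    ring
  · exfalso
    have hss : s * s = 1 := by rcases hs with h | h <;> rw [h] <;> norm_num
    have hsa : |s| = 1 := by rcases hs with h | h <;> rw [h] <;> norm_num
    set N := max n0 p + 1 with hN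
    have hc1 : ∀ i, p ≤ i → c i = s * lam p := fun i hi => by
      have := hinf i
      rwa [if_pos hi] at this
    have hA0 : f (ι a0) = s * lam p * isum a0 p N :=
      eval_Icc ι f a0 p N (s * lam p) (fun i h1 _ => hc1 i h1) (fun i hi => by
        by_cases h1 : p ≤ i
        · have h2 : N < i := by
            by_contra h3
            exact hi ⟨h1, not_lt.mp h3⟩
          rw [hn i (by omega), zero_mul]
        · have := hinf i
          rw [if_neg h1] at this
          change a0 i * c i = 0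
          rw [this, mul_zero])
    set u : ℕ →₀ ℝ := Finsupp.single N 1 - Finsupp.single (N + 1) 1 with hu
    obtain ⟨τ, hτ, hτ2⟩ := hball u
    set r := τ / 2 with hr
    have hr0 : 0 < r := by positivity
    have hball1 := hτ2 (s * r) (by rw [abs_mul, hsa, one_mul, abs_of_pos hr0]; linarith)
    have hnorm := hy _ hball1
    have hfu : f (ι u) = 0 := by
      have h1 : f (ι u) = c N - c (N + 1) := by
        rw [hu, map_sub, map_sub]
      rw [h1, hc1 N (by omega), hc1 (N + 1) (by omega), sub_self]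
    have hfa : f (ι (a0 + (s * r) • u)) = f (ι a0) := by
      rw [map_add, map_smul, map_add, map_smul, hfu, smul_zero, add_zero]
    rw [hfa] at hnorm
    have hlow := hcore.lower (a0 + (s * r) • u) p N (by omega)
    have hiu : isum u p N = 1 := by
      unfold isum
      rw [hu]
      simp only [Finsupp.sub_apply, Finset.sum_sub_distrib, Finsupp.single_apply]
      rw [Finset.sum_ite_eq, Finset.sum_ite_eq, if_pos (Finset.mem_Icc.mpr ⟨by omega, le_rfl⟩),
        if_neg (fun h => by have := (Finset.mem_Icc.mp h).2; omega), sub_zero]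
    have hia : isum (a0 + (s * r) • u) p N = isum a0 p N + s * r := by
      have h1 : isum (a0 + (s * r) • u) p N = isum a0 p N + (s * r) * isum u p N := by
        simp only [isum, Finsupp.add_apply, Finsupp.smul_apply, smul_eq_mul,
          Finset.sum_add_distrib, Finset.mul_sum]
      rw [h1, hiu, mul_one]
    rw [hia, hnorm] at hlow
    have h5 : lam p * (s * (isum a0 p N + s * r)) ≤ lam p * |isum a0 p N + s * r| := by
      apply mul_le_mul_of_nonneg_left _ (hl0 p).le
      calc s * (isum a0 p N + s * r) ≤ |s * (isum a0 p N + s * r)| := le_abs_self _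
        _ = |isum a0 p N + s * r| := by rw [abs_mul, hsa, one_mul]
    have h6 : lam p * (s * (isum a0 p N + s * r)) = f (ι a0) + lam p * r := by
      rw [hA0]
      calc lam p * (s * (isum a0 p N + s * r)) =
          s * lam p * isum a0 p N + lam p * ((s * s) * r) := by ring
        _ = _ := by rw [hss, one_mul]
    have h7 : 0 < lam p * r := mul_pos (hl0 p) hr0
    linarith

end Pool.Agent.R233.JI
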