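import Pool.Agent.R233.JI.Stm

set_option autoImplicit false

namespace Pool.Agent.R233.JI

theorem sep_isum_self (a : ℕ →₀ ℝ) (i : ℕ) : isum a i i = a i := by
  simp [isum]

theorem sep_filter (b : ℕ →₀ ℝ) (n : ℕ) :
    b.filter (fun i => i < n) = ∑ i ∈ Finset.range n, Finsupp.single i (b i) := by
  ext j
  rw [Finsupp.filter_apply, Finsupp.finsetSum_apply]
  simp only [Finsupp.single_apply]
  rw [Finset.sum_ite_eq']
  simp [Finset.mem_range]

theorem tSEP : SEP := by
  intro hlam J _ _ ι hc V hV z hz
  have hVb : ∀ i (w : J), |V i w| ≤ ‖w‖ := by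
    intro i w
    refine hc.dense.induction_on (p := fun w => |V i w| ≤ ‖w‖) w ?_ ?_
    · exact isClosed_le (continuous_abs.comp (V i).continuous) continuous_norm
    · intro a
      rw [hV, abs_mul, abs_of_pos (lt_trans one_pos (hlam.1 i))]
      exact hc.lower a i i le_rfl
  have key : ∀ ε : ℝ, 0 < ε → ‖z‖ ≤ 3 * ε := by
    intro ε hε
    obtain ⟨a, ha⟩ := hc.dense.exists_dist_lt z hε
    rw [dist_eq_norm] at ha
    obtain ⟨n, hn⟩ : ∃ n : ℕ, ∀ i, n ≤ i → a i = 0 := by
      refine ⟨a.support.sup id + 1, fun i hi => ?_⟩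
      by_contra h
      have h1 : i ≤ a.support.sup id :=
        Finset.le_sup (f := id) (Finsupp.mem_support_iff.mpr h)
      omega
    have hpos : (0 : ℝ) < 2 * n + 1 := by positivity
    obtain ⟨b, hb⟩ := hc.dense.exists_dist_lt z (div_pos hε hpos)
    rw [dist_eq_norm] at hb
    set η : ℝ := ε / (2 * n + 1) with hη
    have hbi : ∀ i, |b i| ≤ η := by
      intro i
      have h1 : |V i (ι b - z)| ≤ ‖ι b - z‖ := hVb i _
      rw [map_sub, hz i, sub_zero, hV, sep_isum_self, abs_mul,
        abs_of_pos (lt_trans one_pos (hlam.1 i)), norm_sub_rev] at h1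
      have h2 : |b i| ≤ lam i * |b i| := by
        nlinarith [abs_nonneg (b i), hlam.1 i]
      linarith
    have h1 : a.filter (fun i => i < n) = a := by
      rw [Finsupp.filter_eq_self_iff]
      intro i hi
      by_contra h
      exact hi (hn i (not_lt.mp h))
    have h2 : a = (a - b).filter (fun i => i < n) + b.filter (fun i => i < n) := by
      rw [← Finsupp.filter_add, sub_add_cancel, h1]
    have h3 : ‖ι ((a - b).filter (fun i => i < n))‖ ≤ ε + η := by
      refine (hc.trunc _ _).trans ?_
      rw [map_sub]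
      have : ι a - ι b = (z - ι b) - (z - ι a) := by abel
      rw [this]
      refine (norm_sub_le _ _).trans ?_
      linarith
    have h4 : ‖ι (b.filter (fun i => i < n))‖ ≤ 2 * n * η := by
      rw [sep_filter, map_sum]
      refine (norm_sum_le _ _).trans ?_
      calc ∑ i ∈ Finset.range n, ‖ι (Finsupp.single i (b i))‖
          ≤ ∑ i ∈ Finset.range n, 2 * η := by
            refine Finset.sum_le_sum fun i _ => ?_
            exact (hc.single_le i (b i)).trans (by linarith [hbi i])
        _ = 2 * n * η := by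
            rw [Finset.sum_const, Finset.card_range, nsmul_eq_mul]; ring
    have h5 : ‖ι a‖ ≤ ε + η + 2 * n * η := by
      rw [h2, map_add]
      exact (norm_add_le _ _).trans (by linarith)
    have h6 : (2 * n + 1) * η = ε := by
      rw [hη]; field_simp
    have h7 : ‖z‖ ≤ ‖z - ι a‖ + ‖ι a‖ := by
      calc ‖z‖ = ‖(z - ι a) + ι a‖ := by rw [sub_add_cancel]
        _ ≤ _ := norm_add_le _ _
    linarith
  have h0 : ‖z‖ ≤ 0 := by
    refine le_of_forall_pos_le_add fun ε hε => ?_
    have := key (ε / 3) (by positivity)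
    linarith
  exact norm_le_zero_iff.mp h0

end Pool.Agent.R233.JI
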