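import Mathlib
import Pool.Agent.R233.JI.Stm

set_option autoImplicit false

namespace Pool.Agent.R233.JI

theorem SPKX_sup {X : Type} [NormedAddCommGroup X] [NormedSpace ℝ X] (f : ℕ → X → ℝ) (B : ℝ)
    (h0 : ∀ i v, 0 ≤ f i v) (hB : ∀ i v, f i v ≤ B * ‖v‖)
    (ha : ∀ i u v, f i (u + v) ≤ f i u + f i v) (hs : ∀ i (c : ℝ) v, f i (c • v) = |c| * f i v) :
    (∀ i v, f i v ≤ ⨆ i, f i v) ∧ (∀ v, 0 ≤ ⨆ i, f i v) ∧ (∀ v, (⨆ i, f i v) ≤ B * ‖v‖) ∧
    (∀ u v, (⨆ i, f i (u + v)) ≤ (⨆ i, f i u) + ⨆ i, f i v) ∧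
    (∀ (c : ℝ) v, (⨆ i, f i (c • v)) = |c| * ⨆ i, f i v) := by
  have hb : ∀ v, BddAbove (Set.range fun i => f i v) := by
    intro v
    refine ⟨B * ‖v‖, ?_⟩
    rintro _ ⟨i, rfl⟩
    exact hB i v
  have hle : ∀ i v, f i v ≤ ⨆ i, f i v := fun i v => le_ciSup (hb v) i
  refine ⟨hle, fun v => (h0 0 v).trans (hle 0 v), fun v => ciSup_le fun i => hB i v, ?_, ?_⟩
  · intro u v
    exact ciSup_le fun i => (ha i u v).trans (add_le_add (hle i u) (hle i v))
  · intro c v
    simp only [hs]
    exact (Real.mul_iSup_of_nonneg (abs_nonneg c) _).symm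

theorem SPKX_coord {X : Type} [NormedAddCommGroup X] [NormedSpace ℝ X]
    (b : UnconditionalSchauderBasis ℕ ℝ X) (β : ℕ →₀ ℝ) (i : ℕ) :
    b.coord i (Finsupp.linearCombination ℝ b.basis β) = β i := by
  classical
  simp [Finsupp.linearCombination_apply, Finsupp.sum, b.ortho, Pi.single_apply]
  exact fun h => h.symm

theorem SPKX_lc_norm {X : Type} [NormedAddCommGroup X] [NormedSpace ℝ X] (x : ℕ → X) (K0 : ℝ)
    (hK : ∀ i, ‖x i‖ ≤ K0) (β : ℕ →₀ ℝ) :
    ‖Finsupp.linearCombination ℝ x β‖ ≤ K0 * nn1 β := by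
  rw [Finsupp.linearCombination_apply, Finsupp.sum, nn1, Finset.mul_sum]
  refine (norm_sum_le _ _).trans (Finset.sum_le_sum fun i _ => ?_)
  rw [norm_smul, Real.norm_eq_abs, mul_comm]
  exact mul_le_mul_of_nonneg_right (hK i) (abs_nonneg _)

theorem SPKX_max (β : ℕ →₀ ℝ) : ∃ i0, ∀ i, lam i * |β i| ≤ lam i0 * |β i0| := by
  have hpos : ∀ i, 0 < lam i := fun i => Real.exp_pos _
  by_cases h : β.support.Nonempty
  · obtain ⟨i0, -, h0⟩ := Finset.exists_max_image β.support (fun i => lam i * |β i|) h
    refine ⟨i0, fun i => ?_⟩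
    by_cases hi : i ∈ β.support
    · exact h0 i hi
    · rw [Finsupp.notMem_support_iff.mp hi, abs_zero, mul_zero]
      exact mul_nonneg (hpos _).le (abs_nonneg _)
  · rw [Finset.not_nonempty_iff_eq_empty, Finsupp.support_eq_empty] at h
    exact ⟨0, fun i => by simp [h]⟩

theorem tSPKX : SPKX := by
  intro hlam X _ _ _ b c K0 hc hcb hK0
  classical
  obtain ⟨hl1, hl2, -, -⟩ := hlam
  obtain ⟨C, hC⟩ := UnconditionalSchauderBasis.exists_norm_proj_le b
  have hC0 : 0 ≤ C := (norm_nonneg _).trans (hC ∅)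
  have hK00 : 0 < K0 := hc.trans_le ((hcb 0).trans (hK0 0))
  have hpr : ∀ (A : Finset ℕ) (v : X), ‖b.proj A v‖ ≤ C * ‖v‖ := fun A v =>
    (ContinuousLinearMap.le_opNorm _ v).trans (mul_le_mul_of_nonneg_right (hC _) (norm_nonneg v))
  have hcoord : ∀ (i : ℕ) (v : X), |b.coord i v| ≤ (C / c) * ‖v‖ := by
    intro i v
    have h1 := hpr {i} v
    rw [GeneralSchauderBasis.proj_apply, Finset.sum_singleton, norm_smul, Real.norm_eq_abs] at h1
    have h2 : |b.coord i v| * c ≤ C * ‖v‖ :=
      (mul_le_mul_of_nonneg_left (hcb i) (abs_nonneg _)).trans h1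
    rw [div_mul_eq_mul_div, le_div_iff₀ hc]
    exact h2
  obtain ⟨D, hD⟩ : ∃ D, D = C / c := ⟨_, rfl⟩
  rw [← hD] at hcoord
  have hD0 : 0 ≤ D := by rw [hD]; exact div_nonneg hC0 hc.le
  -- the supremum of the projections
  obtain ⟨S, hS⟩ : ∃ S : X → ℝ, ∀ v, S v = ⨆ n : ℕ, ‖b.proj (Finset.range n) v‖ := ⟨_, fun _ => rfl⟩
  have HS := SPKX_sup (fun (n : ℕ) (v : X) => ‖b.proj (Finset.range n) v‖) C
    (fun _ _ => norm_nonneg _) (fun n v => hpr _ v)
    (fun n u v => by
      show ‖b.proj (Finset.range n) (u + v)‖ ≤ _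
      rw [map_add]; exact norm_add_le _ _)
    (fun n a v => by
      show ‖b.proj (Finset.range n) (a • v)‖ = _
      rw [map_smul, norm_smul, Real.norm_eq_abs])
  simp only [← hS] at HS
  obtain ⟨hSle, hS0, hSB, hSa, hSs⟩ := HS
  obtain ⟨L, hL⟩ : ∃ L : X → ℝ, ∀ v, L v = ⨆ i : ℕ, lam i * |b.coord i v| := ⟨_, fun _ => rfl⟩
  have HL := SPKX_sup (fun (i : ℕ) (v : X) => lam i * |b.coord i v|) (4 / 3 * D)
    (fun i _ => mul_nonneg (by linarith [hl1 i]) (abs_nonneg _))
    (fun i v => by
      show lam i * |b.coord i v| ≤ _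
      have h1 := hcoord i v
      have h2 := hl2 i
      have h3 := hl1 i
      calc lam i * |b.coord i v| ≤ 4 / 3 * (D * ‖v‖) :=
            mul_le_mul h2.le h1 (abs_nonneg _) (by norm_num)
        _ = 4 / 3 * D * ‖v‖ := by ring)
    (fun i u v => by
      show lam i * |b.coord i (u + v)| ≤ lam i * |b.coord i u| + lam i * |b.coord i v|
      rw [map_add, ← mul_add]
      exact mul_le_mul_of_nonneg_left (abs_add_le _ _) (by linarith [hl1 i]))
    (fun i a v => by
      show lam i * |b.coord i (a • v)| = |a| * (lam i * |b.coord i v|)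
      rw [map_smul, smul_eq_mul, abs_mul]; ring)
  simp only [← hL] at HL
  obtain ⟨hLle, hL0, hLB, hLa, hLs⟩ := HL
  -- the weighted sum
  obtain ⟨T, hT⟩ : ∃ T : X → ℝ, ∀ v, T v = ∑' i : ℕ, (1 / 2 : ℝ) ^ i * |b.coord i v| :=
    ⟨_, fun _ => rfl⟩
  have hpow : ∀ i : ℕ, (0 : ℝ) < (1 / 2 : ℝ) ^ i := fun i => by positivity
  have hTsum : ∀ v, Summable (fun i : ℕ => (1 / 2 : ℝ) ^ i * |b.coord i v|) := by
    intro v
    refine Summable.of_nonneg_of_le (fun i => mul_nonneg (hpow i).le (abs_nonneg _))
      (fun i => mul_le_mul_of_nonneg_left (hcoord i v) (hpow i).le)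
      (summable_geometric_two.mul_right _)
  have hT0 : ∀ v, 0 ≤ T v := by
    intro v
    rw [hT]
    exact tsum_nonneg fun i => mul_nonneg (hpow i).le (abs_nonneg _)
  have hTB : ∀ v, T v ≤ 2 * (D * ‖v‖) := by
    intro v
    have e : ∑' i : ℕ, (1 / 2 : ℝ) ^ i * (D * ‖v‖) = 2 * (D * ‖v‖) := by
      rw [tsum_mul_right, tsum_geometric_two]
    rw [hT, ← e]
    exact Summable.tsum_le_tsum (fun i => mul_le_mul_of_nonneg_left (hcoord i v) (hpow i).le)
      (hTsum v) (summable_geometric_two.mul_right _)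
  have hTa : ∀ u v, T (u + v) ≤ T u + T v := by
    intro u v
    rw [hT, hT u, hT v, ← Summable.tsum_add (hTsum u) (hTsum v)]
    refine Summable.tsum_le_tsum (fun i => ?_) (hTsum _) ((hTsum u).add (hTsum v))
    rw [map_add, ← mul_add]
    exact mul_le_mul_of_nonneg_left (abs_add_le _ _) (hpow i).le
  have hTs : ∀ (a : ℝ) v, T (a • v) = |a| * T v := by
    intro a v
    rw [hT, hT v, ← tsum_mul_left]
    congr 1
    funext i
    rw [map_smul, smul_eq_mul, abs_mul]; ring
  -- lower bound
  have hSlow : ∀ v, ‖v‖ ≤ S v := by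
    intro v
    have h1 : Filter.Tendsto (fun n => ∑ i ∈ Finset.range n, b.coord i v • b i) Filter.atTop
        (nhds v) := (b.expansion v).tendsto_sum_nat
    refine le_of_tendsto h1.norm (Filter.Eventually.of_forall fun n => ?_)
    have h2 := hSle n v
    rwa [GeneralSchauderBasis.proj_apply] at h2
  obtain ⟨δ, hδ⟩ : ∃ δ : ℝ, δ = 1 / (8 * (C * K0 + 1)) := ⟨_, rfl⟩
  have hCK : 0 < C * K0 + 1 := by positivity
  have hδ0 : 0 < δ := by rw [hδ]; positivity
  refine ⟨fun v => max (δ * (S v + T v)) (L v), δ, δ * (C + 2 * D) + 4 / 3 * D, hδ0, ?_, ?_, ?_,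
    ?_, fun β => δ * (S (Finsupp.linearCombination ℝ b.basis β) +
      T (Finsupp.linearCombination ℝ b.basis β)), ?_⟩
  · intro u v
    refine max_le ?_ ?_
    · refine le_trans ?_ (add_le_add (le_max_left _ _) (le_max_left _ _))
      rw [← mul_add]
      refine mul_le_mul_of_nonneg_left ?_ hδ0.le
      linarith [hSa u v, hTa u v]
    · exact (hLa u v).trans (add_le_add (le_max_right _ _) (le_max_right _ _))
  · intro a v
    show max (δ * (S (a • v) + T (a • v))) (L (a • v)) = |a| * max (δ * (S v + T v)) (L v)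
    rw [hSs, hTs, hLs, mul_max_of_nonneg _ _ (abs_nonneg a)]
    congr 1
    ring
  · intro v
    refine le_trans ?_ (le_max_left _ _)
    refine mul_le_mul_of_nonneg_left ?_ hδ0.le
    linarith [hSlow v, hT0 v]
  · intro v
    have h1 : δ * (S v + T v) ≤ δ * (C + 2 * D) * ‖v‖ := by
      rw [mul_assoc]
      refine mul_le_mul_of_nonneg_left ?_ hδ0.le
      have := hSB v
      have := hTB v
      nlinarith
    have h2 := hLB v
    have h3 : 0 ≤ δ * (S v + T v) := mul_nonneg hδ0.le (by linarith [hS0 v, hT0 v])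
    have h4 := hL0 v
    refine max_le ?_ ?_
    · rw [add_mul]; linarith
    · rw [add_mul]; linarith
  · have hco := SPKX_coord b
    refine ⟨?_, ?_, ?_, ?_, ?_, ?_⟩
    · intro β i
      refine le_trans ?_ (le_max_right _ _)
      have := hLle i (Finsupp.linearCombination ℝ b.basis β)
      rwa [hco] at this
    · intro β
      exact le_max_left _ _
    · intro β
      rcases le_total (L (Finsupp.linearCombination ℝ b.basis β))
        (δ * (S (Finsupp.linearCombination ℝ b.basis β) +
          T (Finsupp.linearCombination ℝ b.basis β))) with h | h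
      · left; exact max_eq_left h
      · right
        obtain ⟨i0, hi0⟩ := SPKX_max β
        refine ⟨i0, (max_eq_right h).trans ?_⟩
        rw [hL]
        simp only [hco]
        refine le_antisymm (ciSup_le hi0) ?_
        exact le_ciSup (f := fun i => lam i * |β i|) ⟨_, by rintro _ ⟨i, rfl⟩; exact hi0 i⟩ i0
    · intro β β'
      show δ * (S (Finsupp.linearCombination ℝ b.basis (β + β')) +
        T (Finsupp.linearCombination ℝ b.basis (β + β'))) ≤ _
      rw [map_add, ← mul_add]
      refine mul_le_mul_of_nonneg_left ?_ hδ0.le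
      linarith [hSa (Finsupp.linearCombination ℝ b.basis β)
        (Finsupp.linearCombination ℝ b.basis β'), hTa (Finsupp.linearCombination ℝ b.basis β)
        (Finsupp.linearCombination ℝ b.basis β')]
    · intro β
      have h1 := hSB (Finsupp.linearCombination ℝ b.basis β)
      have h2 := SPKX_lc_norm b.basis K0 hK0 β
      have h3 : T (Finsupp.linearCombination ℝ b.basis β) ≤ nn1 β := by
        rw [hT]
        simp only [hco]
        rw [tsum_eq_sum (s := β.support)]
        · refine Finset.sum_le_sum fun i _ => ?_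
          have : (1 / 2 : ℝ) ^ i ≤ 1 := pow_le_one₀ (by norm_num) (by norm_num)
          calc (1 / 2 : ℝ) ^ i * |β i| ≤ 1 * |β i| :=
                mul_le_mul_of_nonneg_right this (abs_nonneg _)
            _ = |β i| := one_mul _
        · intro i hi
          rw [Finsupp.notMem_support_iff.mp hi, abs_zero, mul_zero]
      have h4 : S (Finsupp.linearCombination ℝ b.basis β) +
          T (Finsupp.linearCombination ℝ b.basis β) ≤ (C * K0 + 1) * nn1 β := by
        have := mul_le_mul_of_nonneg_left h2 hC0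
        nlinarith
      show δ * (S (Finsupp.linearCombination ℝ b.basis β) +
          T (Finsupp.linearCombination ℝ b.basis β)) ≤ nn1 β / 8
      refine (mul_le_mul_of_nonneg_left h4 hδ0.le).trans (le_of_eq ?_)
      rw [hδ]
      field_simp
    · intro β n t hβ ht
      show δ * (S (Finsupp.linearCombination ℝ b.basis β) +
          T (Finsupp.linearCombination ℝ b.basis β)) <
        δ * (S (Finsupp.linearCombination ℝ b.basis (β + Finsupp.single n t)) +
          T (Finsupp.linearCombination ℝ b.basis (β + Finsupp.single n t)))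
      refine mul_lt_mul_of_pos_left ?_ hδ0
      refine add_lt_add_of_le_of_lt ?_ ?_
      · rw [hS]
        refine ciSup_le fun m => ?_
        rcases le_or_gt m n with hm | hm
        · have e : b.proj (Finset.range m) (Finsupp.linearCombination ℝ b.basis β) =
              b.proj (Finset.range m)
                (Finsupp.linearCombination ℝ b.basis (β + Finsupp.single n t)) := by
            rw [GeneralSchauderBasis.proj_apply, GeneralSchauderBasis.proj_apply]
            refine Finset.sum_congr rfl fun i hi => ?_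
            rw [Finset.mem_range] at hi
            rw [hco, hco, Finsupp.add_apply, Finsupp.single_eq_of_ne (by omega), add_zero]
          rw [e]
          exact hSle m _
        · have e : b.proj (Finset.range m) (Finsupp.linearCombination ℝ b.basis β) =
              b.proj (Finset.range n)
                (Finsupp.linearCombination ℝ b.basis (β + Finsupp.single n t)) := by
            rw [GeneralSchauderBasis.proj_apply, GeneralSchauderBasis.proj_apply]
            symm
            refine (Finset.sum_congr rfl fun i hi => ?_).trans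
              (Finset.sum_subset (Finset.range_mono hm.le) fun i _ hi => ?_)
            · rw [Finset.mem_range] at hi
              rw [hco, hco, Finsupp.add_apply, Finsupp.single_eq_of_ne (by omega), add_zero]
            · rw [Finset.mem_range, not_lt] at hi
              rw [hco, hβ i hi, zero_smul]
          rw [e]
          exact hSle n _
      · rw [hT, hT]
        refine Summable.tsum_lt_tsum (i := n) (fun i => ?_) ?_ (hTsum _) (hTsum _)
        · refine mul_le_mul_of_nonneg_left ?_ (hpow i).le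
          rw [hco, hco, Finsupp.add_apply]
          by_cases hi : i = n
          · rw [hi, hβ n le_rfl, abs_zero]
            exact abs_nonneg _
          · rw [Finsupp.single_eq_of_ne (by omega), add_zero]
        · refine mul_lt_mul_of_pos_left ?_ (hpow n)
          rw [hco, hco, Finsupp.add_apply, hβ n le_rfl, Finsupp.single_eq_same, abs_zero, zero_add]
          exact abs_pos.mpr ht

end Pool.Agent.R233.JI
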